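import Mathlib

set_option autoImplicit false

open MeasureTheory Filter

namespace Pool.Agent.Lib.MP_ef06cf_an

/-- The random Fibonacci rule on letters (a = true, b = false): a goes to ab or ba, b goes to a. -/
def rule : Bool → Set (List Bool)
  | true => {[true, false], [false, true]}
  | false => {[true]}

/-- The substitution on a set of words: all concatenations of images of the letters. -/
def subst (W : Set (List Bool)) : Set (List Bool) :=
  {v | ∃ w ∈ W, ∃ l : List (List Bool),
    List.Forall₂ (fun c u => u ∈ rule c) w l ∧ v = l.flatten}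

/-- Legal words: subwords of an element of the n-th iterate on a letter, n at least 1. -/
def Legal (u : List Bool) : Prop :=
  ∃ n : ℕ, 1 ≤ n ∧ ∃ c : Bool, ∃ v ∈ subst^[n] {[c]}, u <:+: v

/-- The random Fibonacci subshift. -/
def XRF : Set (ℤ → Bool) :=
  {x | ∀ (i : ℤ) (n : ℕ), Legal (List.ofFn fun j : Fin n => x (i + (j : ℕ)))}

/-- The left shift. -/
def shift (x : ℤ → Bool) : ℤ → Bool := fun i => x (i + 1)

/-- Shannon entropy of the join of the first n shift preimages of the finite partition P. -/
noncomputable def joinEntropy (μ : Measure (ℤ → Bool)) {k : ℕ} (P : (ℤ → Bool) → Fin k)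
    (n : ℕ) : ℝ :=
  ∑ w : Fin n → Fin k, Real.negMulLog (μ.real {x | ∀ j : Fin n, P (shift^[j] x) = w j})

/-- Kolmogorov-Sinai entropy of the shift for the measure: supremum over finite measurable
partitions of the growth rate of the entropy of the joins. -/
noncomputable def ksEntropy (μ : Measure (ℤ → Bool)) : EReal :=
  ⨆ (k : ℕ) (P : (ℤ → Bool) → Fin k) (_ : Measurable P),
    limsup (fun n : ℕ => ((joinEntropy μ P n / n : ℝ) : EReal)) atTop

end Pool.Agent.Lib.MP_ef06cf_an
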