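import Mathlib
import Pool.Agent.Lib.MP_ef06cf_an.Defs

set_option autoImplicit false

open Finset

namespace Pool.Agent.Lib.MP_ef06cf_an

/-- Concatenation of two finite sets of words. -/
def cat (P Q : Finset (List Bool)) : Finset (List Bool) :=
  (P ×ˢ Q).image fun p => p.1 ++ p.2

/-- The inflation words. -/
def A : ℕ → Finset (List Bool)
  | 0 => {[false]}
  | 1 => {[true]}
  | n + 2 => cat (A (n + 1)) (A n) ∪ cat (A n) (A (n + 1))

/-- Their lengths. -/
def fl : ℕ → ℕ
  | 0 => 1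
  | 1 => 1
  | n + 2 => fl (n + 1) + fl n

theorem mem_cat {P Q : Finset (List Bool)} {v : List Bool} :
    v ∈ cat P Q ↔ ∃ x ∈ P, ∃ y ∈ Q, v = x ++ y := by
  simp only [cat, Finset.mem_image, Finset.mem_product, Prod.exists]
  constructor
  · rintro ⟨x, y, ⟨hx, hy⟩, rfl⟩; exact ⟨x, hx, y, hy, rfl⟩
  · rintro ⟨x, hx, y, hy, rfl⟩; exact ⟨x, y, ⟨hx, hy⟩, rfl⟩

theorem append_mem_cat {P Q : Finset (List Bool)} {x y : List Bool} (hx : x ∈ P) (hy : y ∈ Q) :
    x ++ y ∈ cat P Q := mem_cat.2 ⟨x, hx, y, hy, rfl⟩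

theorem A_succ (n : ℕ) : A (n + 2) = cat (A (n + 1)) (A n) ∪ cat (A n) (A (n + 1)) := rfl

theorem fl_succ (n : ℕ) : fl (n + 2) = fl (n + 1) + fl n := rfl

theorem mem_A_left {n : ℕ} {x y : List Bool} (hx : x ∈ A (n + 1)) (hy : y ∈ A n) :
    x ++ y ∈ A (n + 2) := by
  rw [A_succ]; exact Finset.mem_union_left _ (append_mem_cat hx hy)

theorem mem_A_right {n : ℕ} {x y : List Bool} (hx : x ∈ A n) (hy : y ∈ A (n + 1)) :
    x ++ y ∈ A (n + 2) := by
  rw [A_succ]; exact Finset.mem_union_right _ (append_mem_cat hx hy)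

theorem length_A : ∀ (n : ℕ) {v : List Bool}, v ∈ A n → v.length = fl n
  | 0, v, h => by simp only [A, Finset.mem_singleton] at h; subst h; rfl
  | 1, v, h => by simp only [A, Finset.mem_singleton] at h; subst h; rfl
  | n + 2, v, h => by
    rw [A_succ, Finset.mem_union, mem_cat, mem_cat] at h
    rcases h with ⟨x, hx, y, hy, rfl⟩ | ⟨x, hx, y, hy, rfl⟩
    · rw [List.length_append, length_A _ hx, length_A _ hy, fl_succ]
    · rw [List.length_append, length_A _ hx, length_A _ hy, fl_succ, add_comm]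

theorem A_nonempty : ∀ n : ℕ, (A n).Nonempty
  | 0 => ⟨[false], by simp [A]⟩
  | 1 => ⟨[true], by simp [A]⟩
  | n + 2 => by
    obtain ⟨x, hx⟩ := A_nonempty (n + 1)
    obtain ⟨y, hy⟩ := A_nonempty n
    exact ⟨_, mem_A_left hx hy⟩

theorem fl_pos : ∀ n : ℕ, 0 < fl n
  | 0 => one_pos
  | 1 => one_pos
  | n + 2 => by rw [fl_succ]; have := fl_pos n; omega

theorem fl_mono : ∀ n : ℕ, fl n ≤ fl (n + 1)
  | 0 => le_rfl
  | n + 1 => by rw [fl_succ]; omega

theorem fl_le_two : ∀ n : ℕ, fl (n + 1) ≤ 2 * fl n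
  | 0 => by simp [fl]
  | n + 1 => by rw [fl_succ]; have := fl_mono n; omega

theorem le_fl : ∀ n : ℕ, n ≤ fl n
  | 0 => by simp
  | 1 => by simp [fl]
  | n + 2 => by rw [fl_succ]; have := le_fl (n + 1); have := fl_pos n; omega

theorem three_fl_le : ∀ n : ℕ, 3 * fl (n + 1) ≤ 2 * fl (n + 2) := by
  intro n; rw [fl_succ]; have := fl_le_two n; omega

theorem ne_nil_A {n : ℕ} {v : List Bool} (h : v ∈ A n) : v ≠ [] := by
  intro e
  have := length_A n h
  have h2 := fl_pos n
  rw [e] at this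
  simp at this
  omega

theorem sum_cat {P Q : Finset (List Bool)} {a : ℕ} (hP : ∀ x ∈ P, x.length = a)
    (F : List Bool → ℝ) : ∑ v ∈ cat P Q, F v = ∑ x ∈ P, ∑ y ∈ Q, F (x ++ y) := by
  rw [cat, Finset.sum_image, Finset.sum_product]
  rintro ⟨x, y⟩ h ⟨x', y'⟩ h' e
  simp only [Finset.coe_product, Set.mem_prod, Finset.mem_coe] at h h'
  have := List.append_inj e ((hP x h.1).trans (hP x' h'.1).symm)
  exact Prod.ext this.1 this.2

theorem card_cat {P Q : Finset (List Bool)} {a : ℕ} (hP : ∀ x ∈ P, x.length = a) :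
    (cat P Q).card = P.card * Q.card := by
  have := sum_cat (Q := Q) hP fun _ => 1
  simp only [Finset.sum_const, nsmul_eq_mul, mul_one] at this
  exact_mod_cast this

theorem card_A_ge (n : ℕ) : (A (n + 1)).card * (A n).card ≤ (A (n + 2)).card := by
  rw [← card_cat (fun x hx => length_A _ hx), A_succ]
  exact Finset.card_le_card Finset.subset_union_left

theorem card_A_le (n : ℕ) :
    (n + 1) * (A (n + 2)).card ≤ (n + 2) * ((A (n + 1)).card * (A n).card) := by
  induction n with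
  | zero => decide
  | succ n ih =>
    have h1 := Finset.card_union_add_card_inter (cat (A (n + 2)) (A (n + 1)))
      (cat (A (n + 1)) (A (n + 2)))
    have h2 : cat (cat (A (n + 1)) (A n)) (A (n + 1)) ⊆
        cat (A (n + 2)) (A (n + 1)) ∩ cat (A (n + 1)) (A (n + 2)) := by
      intro v hv
      obtain ⟨xy, hxy, z, hz, rfl⟩ := mem_cat.1 hv
      obtain ⟨x, hx, y, hy, rfl⟩ := mem_cat.1 hxy
      refine Finset.mem_inter.2 ⟨append_mem_cat (mem_A_left hx hy) hz, ?_⟩
      rw [List.append_assoc]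
      exact append_mem_cat hx (mem_A_right hy hz)
    have h3 := Finset.card_le_card h2
    rw [card_cat (a := fl (n + 2)) (fun x hx => length_A _
      (by rw [A_succ]; exact Finset.mem_union_left _ hx)),
      card_cat (fun x hx => length_A _ hx)] at h3
    rw [card_cat (fun x hx => length_A _ hx), card_cat (fun x hx => length_A _ hx),
      ← A_succ] at h1
    set a := (A n).card
    set b := (A (n + 1)).card
    set c := (A (n + 2)).card
    set d := (A (n + 1 + 2)).card
    set e := (cat (A (n + 2)) (A (n + 1)) ∩ cat (A (n + 1)) (A (n + 2))).card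
    have h4 : (n + 1) * c * b ≤ (n + 2) * (b * a) * b := Nat.mul_le_mul_right _ ih
    have h5 : (n + 2) * (b * a * b) ≤ (n + 2) * e := Nat.mul_le_mul_left _ h3
    nlinarith

/-! ### Relation with the substitution -/

theorem subst_union (P Q : Set (List Bool)) : subst (P ∪ Q) = subst P ∪ subst Q := by
  ext v
  simp only [subst, Set.mem_union, Set.mem_ofPred_eq]
  constructor
  · rintro ⟨w, hw | hw, h⟩
    · exact Or.inl ⟨w, hw, h⟩
    · exact Or.inr ⟨w, hw, h⟩
  · rintro (⟨w, hw, h⟩ | ⟨w, hw, h⟩)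
    · exact ⟨w, Or.inl hw, h⟩
    · exact ⟨w, Or.inr hw, h⟩

theorem subst_cat {P Q P' Q' : Finset (List Bool)} (hP : subst P = P') (hQ : subst Q = Q') :
    subst (cat P Q) = cat P' Q' := by
  ext v
  rw [Finset.mem_coe, mem_cat]
  constructor
  · rintro ⟨w, hw, l, hl, rfl⟩
    obtain ⟨x, hx, y, hy, rfl⟩ := mem_cat.1 (Finset.mem_coe.1 hw)
    have h1 := List.forall₂_take x.length hl
    have h2 := List.forall₂_drop x.length hl
    simp only [List.take_left', List.drop_left'] at h1 h2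
    refine ⟨(l.take x.length).flatten, ?_, (l.drop x.length).flatten, ?_, ?_⟩
    · rw [← Finset.mem_coe, ← hP]; exact ⟨x, hx, _, h1, rfl⟩
    · rw [← Finset.mem_coe, ← hQ]; exact ⟨y, hy, _, h2, rfl⟩
    · rw [← List.flatten_append, List.take_append_drop]
  · rintro ⟨x', hx', y', hy', rfl⟩
    rw [← Finset.mem_coe, ← hP] at hx'
    rw [← Finset.mem_coe, ← hQ] at hy'
    obtain ⟨x, hx, l1, h1, rfl⟩ := hx'
    obtain ⟨y, hy, l2, h2, rfl⟩ := hy'
    exact ⟨x ++ y, append_mem_cat hx hy, l1 ++ l2, List.rel_append h1 h2,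
      by rw [List.flatten_append]⟩

theorem subst_single (c : Bool) : subst {[c]} = rule c := by
  ext v
  constructor
  · rintro ⟨w, hw, l, hl, rfl⟩
    rw [Set.mem_singleton_iff] at hw
    subst hw
    cases hl with
    | cons h1 h2 => cases h2; simpa using h1
  · intro h
    exact ⟨[c], rfl, [v], List.Forall₂.cons h List.Forall₂.nil, by simp⟩

theorem subst_A : ∀ n : ℕ, subst (A n) = A (n + 1)
  | 0 => by
    have := subst_single false
    simp only [A, Finset.coe_singleton]
    rw [this]; rfl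
  | 1 => by
    have := subst_single true
    have e : A 2 = {[true, false], [false, true]} := by decide
    rw [e]
    simp only [A, Finset.coe_singleton]
    rw [this]; simp [rule]
  | n + 2 => by
    rw [A_succ, A_succ (n + 1), Finset.coe_union, Finset.coe_union, subst_union,
      subst_cat (subst_A (n + 1)) (subst_A n), subst_cat (subst_A n) (subst_A (n + 1))]

theorem iterate_subst (m n : ℕ) : subst^[n] (A m) = A (m + n) := by
  induction n with
  | zero => rfl
  | succ n ih => rw [Function.iterate_succ_apply', ih, subst_A]; rfl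

theorem A_extend {m : ℕ} {v : List Bool} (h : v ∈ A m) :
    ∃ y z : List Bool, y ≠ [] ∧ z ≠ [] ∧ y ++ v ++ z ∈ A (m + 3) := by
  obtain ⟨y, hy⟩ := A_nonempty (m + 1)
  exact ⟨y, y, ne_nil_A hy, ne_nil_A hy, mem_A_left (mem_A_left hy h) hy⟩

theorem legal_iff {u : List Bool} : Legal u ↔ ∃ n, ∃ v ∈ A n, u <:+: v := by
  constructor
  · rintro ⟨n, -, c, v, hv, h⟩
    cases c with
    | false =>
      have := iterate_subst 0 n
      have e : ((A 0 : Finset (List Bool)) : Set (List Bool)) = {[false]} := by simp [A]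
      rw [e] at this
      rw [this] at hv
      exact ⟨_, v, hv, h⟩
    | true =>
      have := iterate_subst 1 n
      have e : ((A 1 : Finset (List Bool)) : Set (List Bool)) = {[true]} := by simp [A]
      rw [e] at this
      rw [this] at hv
      exact ⟨_, v, hv, h⟩
  · rintro ⟨n, v, hv, h⟩
    obtain ⟨y, z, -, -, h2⟩ := A_extend hv
    refine ⟨n + 3, by omega, false, y ++ v ++ z, ?_, h.trans ⟨y, z, rfl⟩⟩
    have := iterate_subst 0 (n + 3)
    have e : ((A 0 : Finset (List Bool)) : Set (List Bool)) = {[false]} := by simp [A]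
    rw [e, zero_add] at this
    rw [this]
    exact h2

theorem Legal.sub {u v : List Bool} (hv : Legal v) (h : u <:+: v) : Legal u := by
  obtain ⟨n, w, hw, h2⟩ := legal_iff.1 hv
  exact legal_iff.2 ⟨n, w, hw, h.trans h2⟩

theorem legal_of_mem {n : ℕ} {v : List Bool} (h : v ∈ A n) : Legal v :=
  legal_iff.2 ⟨n, v, h, List.infix_refl _⟩

theorem Legal.high {u : List Bool} (h : Legal u) (n : ℕ) : ∃ m, n ≤ m ∧ ∃ v ∈ A m, u <:+: v := by
  induction n with
  | zero => obtain ⟨m, v, hv, h2⟩ := legal_iff.1 h; exact ⟨m, Nat.zero_le _, v, hv, h2⟩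
  | succ n ih =>
    obtain ⟨m, hm, v, hv, h2⟩ := ih
    obtain ⟨y, z, -, -, h3⟩ := A_extend hv
    exact ⟨m + 3, by omega, _, h3, h2.trans ⟨y, z, rfl⟩⟩

theorem Legal.extend {u : List Bool} (h : Legal u) : ∃ c d : Bool, Legal (c :: u ++ [d]) := by
  obtain ⟨m, v, hv, s, t, rfl⟩ := legal_iff.1 h
  obtain ⟨y, z, hy, hz, h3⟩ := A_extend hv
  have h1 : y ++ s ≠ [] := by simp [hy]
  have h2 : t ++ z ≠ [] := by simp [hz]
  obtain ⟨p, c, e1⟩ : ∃ p c, y ++ s = p ++ [c] :=
    ⟨_, _, (List.dropLast_append_getLast h1).symm⟩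
  obtain ⟨d, q, e2⟩ := List.exists_cons_of_ne_nil h2
  refine ⟨c, d, (legal_of_mem h3).sub ⟨p, q, ?_⟩⟩
  calc p ++ (c :: u ++ [d]) ++ q = (p ++ [c]) ++ u ++ (d :: q) := by simp
    _ = y ++ (s ++ u ++ t) ++ z := by rw [← e1, ← e2]; simp

theorem Legal.extend_both {u : List Bool} (h : Legal u) (k : ℕ) :
    ∃ l r : List Bool, l.length = k ∧ r.length = k ∧ Legal (l ++ u ++ r) := by
  induction k with
  | zero => exact ⟨[], [], rfl, rfl, by simpa using h⟩
  | succ k ih =>
    obtain ⟨l, r, hl, hr, h2⟩ := ih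
    obtain ⟨c, d, h3⟩ := h2.extend
    exact ⟨c :: l, r ++ [d], by simp [hl], by simp [hr], by simpa using h3⟩

/-! ### Parsing -/

theorem A_blocks (n : ℕ) : ∀ (k : ℕ) {v : List Bool}, v ∈ A (n + k) →
    ∃ l : List (List Bool), (∀ b ∈ l, b ∈ A n ∪ A (n + 1)) ∧ v = l.flatten
  | 0, v, h => ⟨[v], by simpa using Or.inl h, by simp⟩
  | 1, v, h => ⟨[v], by simpa using Or.inr h, by simp⟩
  | k + 2, v, h => by
    rw [← add_assoc, A_succ, Finset.mem_union, mem_cat, mem_cat] at h
    rcases h with ⟨x, hx, y, hy, rfl⟩ | ⟨x, hx, y, hy, rfl⟩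
    · obtain ⟨l1, h1, rfl⟩ := A_blocks n (k + 1) hx
      obtain ⟨l2, h2, rfl⟩ := A_blocks n k hy
      refine ⟨l1 ++ l2, fun b hb => ?_, by simp⟩
      rcases List.mem_append.1 hb with h | h
      exacts [h1 b h, h2 b h]
    · obtain ⟨l1, h1, rfl⟩ := A_blocks n k hx
      obtain ⟨l2, h2, rfl⟩ := A_blocks n (k + 1) hy
      refine ⟨l1 ++ l2, fun b hb => ?_, by simp⟩
      rcases List.mem_append.1 hb with h | h
      exacts [h1 b h, h2 b h]

theorem prefix_flatten (F : ℕ) : ∀ (l : List (List Bool)) (u : List Bool),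
    (∀ b ∈ l, b.length ≤ F) → u <+: l.flatten →
    ∃ (l' : List (List Bool)) (p : List Bool), (∀ b ∈ l', b ∈ l) ∧ p.length ≤ F ∧
      u = l'.flatten ++ p
  | [], u, _, h => ⟨[], [], by simp, by simp, by simpa using h⟩
  | b :: l, u, hl, h => by
    rw [List.flatten_cons] at h
    rcases List.prefix_or_prefix_of_prefix h (List.prefix_append b l.flatten) with h1 | h1
    · exact ⟨[], u, by simp, h1.length_le.trans (hl b (by simp)), by simp⟩
    · obtain ⟨u', rfl⟩ := h1
      obtain ⟨l', p, h2, h3, rfl⟩ := prefix_flatten F l u' (fun c hc => hl c (by simp [hc]))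
        ((List.prefix_append_right_inj b).1 h)
      refine ⟨b :: l', p, fun c hc => ?_, h3, by simp⟩
      rcases List.mem_cons.1 hc with rfl | hc
      · simp
      · simp [h2 c hc]

theorem suffix_flatten (F : ℕ) : ∀ (l : List (List Bool)) (u : List Bool),
    (∀ b ∈ l, b.length ≤ F) → u <:+ l.flatten →
    ∃ (l' : List (List Bool)) (s : List Bool), (∀ b ∈ l', b ∈ l) ∧ s.length ≤ F ∧
      u = s ++ l'.flatten
  | [], u, _, h => ⟨[], [], by simp, by simp, by simpa using h⟩
  | b :: l, u, hl, h => by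
    rw [List.flatten_cons] at h
    rcases List.suffix_or_suffix_of_suffix h (List.suffix_append b l.flatten) with h1 | h1
    · obtain ⟨l', s, h2, h3, rfl⟩ := suffix_flatten F l u (fun c hc => hl c (by simp [hc])) h1
      exact ⟨l', s, fun c hc => by simp [h2 c hc], h3, rfl⟩
    · obtain ⟨s, rfl⟩ := h1
      refine ⟨l, s, fun c hc => by simp [hc], ?_, rfl⟩
      have := h.length_le
      simp only [List.length_append] at this
      have h4 := hl b (by simp)
      omega

theorem Legal.parse {u : List Bool} (h : Legal u) (n : ℕ) :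
    ∃ (s p : List Bool) (l : List (List Bool)), s.length ≤ fl (n + 1) ∧ p.length ≤ fl (n + 1) ∧
      (∀ b ∈ l, b ∈ A n ∪ A (n + 1)) ∧ u = s ++ l.flatten ++ p := by
  obtain ⟨m, hm, v, hv, h2⟩ := h.high n
  obtain ⟨k, rfl⟩ := Nat.exists_eq_add_of_le hm
  obtain ⟨l, hl, rfl⟩ := A_blocks n k hv
  have hlen : ∀ b ∈ l, b.length ≤ fl (n + 1) := by
    intro b hb
    rcases Finset.mem_union.1 (hl b hb) with h | h
    · rw [length_A _ h]; exact fl_mono n
    · rw [length_A _ h]
  obtain ⟨t, h3, h4⟩ := List.infix_iff_prefix_suffix.1 h2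
  obtain ⟨l1, s, h5, h6, rfl⟩ := suffix_flatten _ l t hlen h4
  rcases List.prefix_or_prefix_of_prefix h3 (List.prefix_append s l1.flatten) with h7 | h7
  · exact ⟨u, [], [], h7.length_le.trans h6, by simp, by simp, by simp⟩
  · obtain ⟨u', rfl⟩ := h7
    obtain ⟨l2, p, h8, h9, rfl⟩ := prefix_flatten _ l1 u' (fun c hc => hlen c (h5 c hc))
      ((List.prefix_append_right_inj s).1 h3)
    exact ⟨s, p, l2, h6, h9, fun b hb => hl b (h5 b (h8 b hb)), by simp⟩

end Pool.Agent.Lib.MP_ef06cf_an
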