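import Mathlib
import Pool.Agent.Lib.MP_ef06cf_an.Words

set_option autoImplicit false

open Finset Filter Topology

namespace Pool.Agent.Lib.MP_ef06cf_an

/-- Number of occurrences of a word. -/
def occ (w : List Bool) : List Bool → ℕ
  | [] => 0
  | c :: u => (if w <+: c :: u then 1 else 0) + occ w u

theorem occ_le_length (w : List Bool) : ∀ u : List Bool, occ w u ≤ u.length
  | [] => le_rfl
  | c :: u => by
    have := occ_le_length w u
    simp only [occ, List.length_cons]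
    split_ifs <;> omega

theorem occ_append_ge (w v : List Bool) : ∀ u : List Bool, occ w u + occ w v ≤ occ w (u ++ v)
  | [] => by simp [occ]
  | c :: u => by
    have := occ_append_ge w v u
    simp only [occ, List.cons_append]
    split_ifs with h1 h2
    · omega
    · exact absurd (h1.trans (List.prefix_append (c :: u) v)) h2
    · omega
    · omega

theorem occ_append_le' (w v : List Bool) :
    ∀ u : List Bool, occ w (u ++ v) ≤ occ w u + occ w v + min w.length u.length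
  | [] => by simp [occ]
  | c :: u => by
    have := occ_append_le' w v u
    simp only [occ, List.cons_append, List.length_cons]
    split_ifs with h1 h2
    · omega
    · have h3 : ¬ w.length ≤ (c :: u).length := fun h =>
        h2 (List.prefix_of_prefix_length_le h1 (List.prefix_append (c :: u) v) h)
      simp only [List.length_cons] at h3
      omega
    · omega
    · omega

theorem occ_append_le (w u v : List Bool) : occ w (u ++ v) ≤ occ w u + occ w v + w.length :=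
  (occ_append_le' w v u).trans (by omega)

theorem tendsto_of_rec (x e : ℕ → ℝ) (hx : ∀ n, 0 ≤ x n) (he : Tendsto e atTop (𝓝 0))
    (h : ∀ n, x (n + 2) ≤ (2 / 3) * max (x (n + 1)) (x n) + e n) : Tendsto x atTop (𝓝 0) := by
  rw [Metric.tendsto_atTop]
  intro ε hε
  obtain ⟨N, hN⟩ := eventually_atTop.1 (he.eventually (gt_mem_nhds (show (0 : ℝ) < ε / 6 by
    positivity)))
  set B := max (x N) (x (N + 1)) with hB
  have hB0 : 0 ≤ B := (hx N).trans (le_max_left _ _)
  have key : ∀ k : ℕ, x (N + 2 * k) ≤ ε / 2 + (2 / 3) ^ k * B ∧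
      x (N + 2 * k + 1) ≤ ε / 2 + (2 / 3) ^ k * B := by
    intro k
    induction k with
    | zero =>
      simp only [mul_zero, add_zero, pow_zero, one_mul]
      exact ⟨by linarith [le_max_left (x N) (x (N + 1))],
        by linarith [le_max_right (x N) (x (N + 1))]⟩
    | succ k ih =>
      have p0 : 0 ≤ (2 / 3 : ℝ) ^ k * B := by positivity
      have h1 := h (N + 2 * k)
      have h2 := h (N + 2 * k + 1)
      have e1 := hN (N + 2 * k) (by omega)
      have e2 := hN (N + 2 * k + 1) (by omega)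
      have m1 : max (x (N + 2 * k + 1)) (x (N + 2 * k)) ≤ ε / 2 + (2 / 3) ^ k * B :=
        max_le ih.2 ih.1
      have a1 : x (N + 2 * k + 2) ≤ ε / 2 + (2 / 3) ^ (k + 1) * B := by
        rw [pow_succ]; nlinarith
      have m2 : max (x (N + 2 * k + 1 + 1)) (x (N + 2 * k + 1)) ≤ ε / 2 + (2 / 3) ^ k * B := by
        refine max_le (a1.trans ?_) ih.2
        rw [pow_succ]; nlinarith
      refine ⟨a1, ?_⟩
      rw [show N + 2 * (k + 1) + 1 = N + 2 * k + 1 + 2 by ring, pow_succ]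
      nlinarith
  have t : Tendsto (fun k : ℕ => (2 / 3 : ℝ) ^ k * B) atTop (𝓝 0) := by
    simpa using (tendsto_pow_atTop_nhds_zero_of_lt_one (r := (2 / 3 : ℝ)) (by norm_num)
      (by norm_num)).mul_const B
  obtain ⟨K, hK⟩ := eventually_atTop.1 (t.eventually (gt_mem_nhds (show (0 : ℝ) < ε / 2 by
    positivity)))
  refine ⟨N + 2 * K, fun n hn => ?_⟩
  rw [Real.dist_eq, sub_zero, abs_of_nonneg (hx n)]
  obtain ⟨k, hk⟩ : ∃ k, n = N + 2 * k ∨ n = N + 2 * k + 1 := ⟨(n - N) / 2, by omega⟩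
  have := hK k (by omega)
  rcases hk with rfl | rfl
  · linarith [(key k).1]
  · linarith [(key k).2]

/-- Cardinality as a real number. -/
noncomputable def cA (n : ℕ) : ℝ := (A n).card

theorem cA_pos (n : ℕ) : 0 < cA n := by
  unfold cA; exact_mod_cast (A_nonempty n).card_pos

theorem flR_pos (n : ℕ) : (0 : ℝ) < fl n := by exact_mod_cast fl_pos n

theorem flR_succ (n : ℕ) : (fl (n + 2) : ℝ) = fl (n + 1) + fl n := by
  rw [fl_succ]; push_cast; ring

theorem cA_ge (n : ℕ) : cA (n + 1) * cA n ≤ cA (n + 2) := by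
  unfold cA; exact_mod_cast card_A_ge n

theorem cA_le (n : ℕ) : (n + 1) * cA (n + 2) ≤ (n + 2) * (cA (n + 1) * cA n) := by
  unfold cA; exact_mod_cast card_A_le n

theorem avg_le (n : ℕ) (F : List Bool → ℝ) (B : ℝ) (h0 : ∀ v, 0 ≤ F v)
    (hB : ∀ v ∈ A (n + 2), F v ≤ B) :
    (∑ v ∈ A (n + 2), F v) / cA (n + 2) ≤
      (∑ x ∈ A (n + 1), ∑ y ∈ A n, F (x ++ y)) / (cA (n + 1) * cA n) + B / (n + 2) := by
  have hsub : cat (A (n + 1)) (A n) ⊆ A (n + 2) := by
    rw [A_succ]; exact Finset.subset_union_left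
  have hB0 : 0 ≤ B := by
    obtain ⟨v, hv⟩ := A_nonempty (n + 2)
    exact (h0 v).trans (hB v hv)
  rw [← sum_cat (fun x hx => length_A _ hx), ← Finset.sum_sdiff hsub]
  set S := ∑ v ∈ cat (A (n + 1)) (A n), F v
  have hS : 0 ≤ S := Finset.sum_nonneg fun _ _ => h0 _
  have h1 : ∑ v ∈ A (n + 2) \ cat (A (n + 1)) (A n), F v ≤ (cA (n + 2) - cA (n + 1) * cA n) * B := by
    refine (Finset.sum_le_card_nsmul _ _ B fun v hv => hB v (Finset.mem_sdiff.1 hv).1).trans ?_
    rw [Finset.card_sdiff_of_subset hsub, nsmul_eq_mul, Nat.cast_sub (Finset.card_le_card hsub),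
      card_cat (fun x hx => length_A _ hx)]
    unfold cA
    push_cast
    exact le_rfl
  have p1 := cA_pos (n + 2)
  have p2 := mul_pos (cA_pos (n + 1)) (cA_pos n)
  have g1 := cA_ge n
  have g2 := cA_le n
  have h2 : S / cA (n + 2) ≤ S / (cA (n + 1) * cA n) := div_le_div_of_nonneg_left hS p2 g1
  have h3 : (cA (n + 2) - cA (n + 1) * cA n) * B / cA (n + 2) ≤ B / (n + 2) := by
    rw [div_le_div_iff₀ p1 (by positivity)]
    nlinarith
  rw [add_div]
  have h4 := div_le_div_of_nonneg_right h1 p1.le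
  linarith

/-- Mean number of occurrences. -/
noncomputable def Mn (w : List Bool) (n : ℕ) : ℝ := (∑ v ∈ A n, (occ w v : ℝ)) / cA n

/-- Second moment about a centre. -/
noncomputable def Sq (w : List Bool) (n : ℕ) (c : ℝ) : ℝ :=
  (∑ v ∈ A n, ((occ w v : ℝ) - c) ^ 2) / cA n

theorem sum_dev (w : List Bool) (n : ℕ) : ∑ v ∈ A n, ((occ w v : ℝ) - Mn w n) = 0 := by
  rw [Finset.sum_sub_distrib, Finset.sum_const, nsmul_eq_mul, Mn]
  have := cA_pos n
  unfold cA at *
  field_simp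
  ring

theorem Sq_eq (w : List Bool) (n : ℕ) (c : ℝ) :
    Sq w n c = Sq w n (Mn w n) + (Mn w n - c) ^ 2 := by
  have h := sum_dev w n
  have p := cA_pos n
  have : ∑ v ∈ A n, ((occ w v : ℝ) - c) ^ 2 = ∑ v ∈ A n, ((occ w v : ℝ) - Mn w n) ^ 2 +
      2 * (Mn w n - c) * ∑ v ∈ A n, ((occ w v : ℝ) - Mn w n) + cA n * (Mn w n - c) ^ 2 := by
    rw [Finset.mul_sum, ← Finset.sum_add_distrib, cA, ← nsmul_eq_mul, ← Finset.sum_const,
      ← Finset.sum_add_distrib]
    exact Finset.sum_congr rfl fun _ _ => by ring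
  rw [Sq, Sq, this, h]
  field_simp
  ring

theorem Sq_nonneg (w : List Bool) (n : ℕ) (c : ℝ) : 0 ≤ Sq w n c :=
  div_nonneg (Finset.sum_nonneg fun _ _ => sq_nonneg _) (cA_pos n).le

theorem Mn_nonneg (w : List Bool) (n : ℕ) : 0 ≤ Mn w n :=
  div_nonneg (Finset.sum_nonneg fun _ _ => Nat.cast_nonneg _) (cA_pos n).le

theorem occ_le_fl (w : List Bool) {n : ℕ} {v : List Bool} (h : v ∈ A n) :
    (occ w v : ℝ) ≤ fl n := by
  rw [← length_A n h]; exact_mod_cast occ_le_length w v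

theorem Mn_le (w : List Bool) (n : ℕ) : Mn w n ≤ fl n := by
  rw [Mn, div_le_iff₀ (cA_pos n)]
  refine (Finset.sum_le_card_nsmul _ _ (fl n : ℝ) fun v hv => occ_le_fl w hv).trans ?_
  rw [nsmul_eq_mul, cA, mul_comm]

theorem Sq_rec (w : List Bool) (n : ℕ) :
    Sq w (n + 2) (Mn w (n + 1) + Mn w n) ≤
      (6 / 5) * (Sq w (n + 1) (Mn w (n + 1)) + Sq w n (Mn w n)) + 6 * (w.length : ℝ) ^ 2 +
        (fl (n + 2) : ℝ) ^ 2 / (n + 2) := by
  have h1 := avg_le n (fun v => ((occ w v : ℝ) - (Mn w (n + 1) + Mn w n)) ^ 2)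
    ((fl (n + 2) : ℝ) ^ 2) (fun _ => sq_nonneg _) (fun v hv => by
      have a1 := occ_le_fl w hv
      have a2 := Mn_le w n
      have a3 := Mn_le w (n + 1)
      have a4 := Mn_nonneg w n
      have a5 := Mn_nonneg w (n + 1)
      have a6 : (0 : ℝ) ≤ occ w v := Nat.cast_nonneg _
      have a7 := flR_succ n
      exact sq_le_sq' (by linarith) (by linarith))
  refine h1.trans ?_
  have p1 := cA_pos n
  have p2 := cA_pos (n + 1)
  have h2 : ∑ x ∈ A (n + 1), ∑ y ∈ A n, ((occ w (x ++ y) : ℝ) - (Mn w (n + 1) + Mn w n)) ^ 2 ≤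
      ∑ x ∈ A (n + 1), ∑ y ∈ A n, ((6 / 5) * (((occ w x : ℝ) - Mn w (n + 1)) ^ 2 +
        ((occ w y : ℝ) - Mn w n) ^ 2 +
        2 * (((occ w x : ℝ) - Mn w (n + 1)) * ((occ w y : ℝ) - Mn w n))) +
        6 * (w.length : ℝ) ^ 2) := by
    refine Finset.sum_le_sum fun x _ => Finset.sum_le_sum fun y _ => ?_
    have b1 : (occ w x : ℝ) + occ w y ≤ occ w (x ++ y) := by exact_mod_cast occ_append_ge w y x
    have b2 : (occ w (x ++ y) : ℝ) ≤ occ w x + occ w y + w.length := by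
      exact_mod_cast occ_append_le w x y
    set e := (occ w (x ++ y) : ℝ) - occ w x - occ w y
    set α := (occ w x : ℝ) - Mn w (n + 1) + (occ w y - Mn w n)
    have e1 : (occ w (x ++ y) : ℝ) - (Mn w (n + 1) + Mn w n) = α + e := by simp only [α, e]; ring
    have e2 : e ^ 2 ≤ (w.length : ℝ) ^ 2 :=
      sq_le_sq' (by simp only [e]; linarith [(Nat.cast_nonneg w.length : (0 : ℝ) ≤ _)])
        (by simp only [e]; linarith)
    rw [e1]
    have e3 : ((occ w x : ℝ) - Mn w (n + 1)) ^ 2 + ((occ w y : ℝ) - Mn w n) ^ 2 +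
        2 * (((occ w x : ℝ) - Mn w (n + 1)) * ((occ w y : ℝ) - Mn w n)) = α ^ 2 := by
      simp only [α]; ring
    rw [e3]
    nlinarith [sq_nonneg (α - 5 * e)]
  have h3 : ∑ x ∈ A (n + 1), ∑ y ∈ A n, ((6 / 5) * (((occ w x : ℝ) - Mn w (n + 1)) ^ 2 +
        ((occ w y : ℝ) - Mn w n) ^ 2 +
        2 * (((occ w x : ℝ) - Mn w (n + 1)) * ((occ w y : ℝ) - Mn w n))) +
        6 * (w.length : ℝ) ^ 2) =
      (6 / 5) * (cA n * ∑ x ∈ A (n + 1), ((occ w x : ℝ) - Mn w (n + 1)) ^ 2 +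
        cA (n + 1) * ∑ y ∈ A n, ((occ w y : ℝ) - Mn w n) ^ 2) +
        cA (n + 1) * cA n * (6 * (w.length : ℝ) ^ 2) := by
    simp only [Finset.sum_add_distrib, ← Finset.mul_sum, Finset.sum_const, nsmul_eq_mul,
      sum_dev w n, mul_zero, cA, add_zero]
    ring
  rw [h3] at h2
  have h4 := div_le_div_of_nonneg_right h2 (mul_pos p2 p1).le
  refine add_le_add_left (h4.trans (le_of_eq ?_)) _
  unfold Sq
  field_simp

theorem tendsto_fl : Tendsto (fun n => (fl n : ℝ)) atTop atTop :=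
  tendsto_natCast_atTop_atTop.comp (tendsto_atTop_mono le_fl tendsto_id)

/-- Error sequence. -/
noncomputable def err (w : List Bool) (n : ℕ) : ℝ :=
  6 * (w.length : ℝ) ^ 2 / (fl (n + 2) : ℝ) ^ 2 + 1 / ((n : ℝ) + 2)

theorem tendsto_err (w : List Bool) : Tendsto (err w) atTop (𝓝 0) := by
  have h1 : Tendsto (fun n => 6 * (w.length : ℝ) ^ 2 / (fl (n + 2) : ℝ) ^ 2) atTop (𝓝 0) :=
    tendsto_const_nhds.div_atTop ((tendsto_pow_atTop two_ne_zero).comp
      (tendsto_fl.comp (tendsto_add_atTop_nat 2)))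
  have h2 : Tendsto (fun n : ℕ => 1 / ((n : ℝ) + 2)) atTop (𝓝 0) :=
    tendsto_const_nhds.div_atTop (tendsto_atTop_add_const_right _ _ tendsto_natCast_atTop_atTop)
  have := h1.add h2
  rw [add_zero] at this
  exact this

/-- Normalised variance. -/
noncomputable def un (w : List Bool) (n : ℕ) : ℝ := Sq w n (Mn w n) / (fl n : ℝ) ^ 2

theorem un_nonneg (w : List Bool) (n : ℕ) : 0 ≤ un w n := div_nonneg (Sq_nonneg _ _ _) (sq_nonneg _)

theorem Sq_rec' (w : List Bool) (n : ℕ) :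
    Sq w (n + 2) (Mn w (n + 1) + Mn w n) / (fl (n + 2) : ℝ) ^ 2 ≤
      (2 / 3) * max (un w (n + 1)) (un w n) + err w n := by
  have h := Sq_rec w n
  have p0 := flR_pos n
  have p1 := flR_pos (n + 1)
  have p2 := flR_pos (n + 2)
  set m := max (un w (n + 1)) (un w n)
  have m0 : 0 ≤ m := (un_nonneg w n).trans (le_max_right _ _)
  have h1 : Sq w (n + 1) (Mn w (n + 1)) ≤ m * (fl (n + 1) : ℝ) ^ 2 :=
    (div_le_iff₀ (by positivity)).1 (le_max_left _ _ : un w (n + 1) ≤ m)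
  have h2 : Sq w n (Mn w n) ≤ m * (fl n : ℝ) ^ 2 :=
    (div_le_iff₀ (by positivity)).1 (le_max_right _ _ : un w n ≤ m)
  have f1 : (fl n : ℝ) ≤ fl (n + 1) := by exact_mod_cast fl_mono n
  have f2 : (fl (n + 1) : ℝ) ≤ 2 * fl n := by exact_mod_cast fl_le_two n
  have f3 := flR_succ n
  have h3 : 9 * ((fl (n + 1) : ℝ) ^ 2 + (fl n : ℝ) ^ 2) ≤ 5 * (fl (n + 2) : ℝ) ^ 2 := by
    rw [f3]; nlinarith
  rw [div_le_iff₀ (by positivity), err]
  have e : (2 / 3 * m + (6 * (w.length : ℝ) ^ 2 / (fl (n + 2) : ℝ) ^ 2 + 1 / ((n : ℝ) + 2))) *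
      (fl (n + 2) : ℝ) ^ 2 = 2 / 3 * m * (fl (n + 2) : ℝ) ^ 2 + 6 * (w.length : ℝ) ^ 2 +
      (fl (n + 2) : ℝ) ^ 2 / (n + 2) := by field_simp; ring
  rw [e]
  nlinarith [mul_le_mul_of_nonneg_left h3 m0]

theorem tendsto_un (w : List Bool) : Tendsto (un w) atTop (𝓝 0) := by
  refine tendsto_of_rec _ _ (un_nonneg w) (tendsto_err w) fun n => le_trans ?_ (Sq_rec' w n)
  rw [un, Sq_eq w (n + 2) (Mn w (n + 1) + Mn w n)]
  exact div_le_div_of_nonneg_right (by nlinarith [sq_nonneg (Mn w (n + 2) - (Mn w (n + 1) + Mn w n))])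
    (sq_nonneg _)

theorem tendsto_defect (w : List Bool) :
    Tendsto (fun n => |Mn w (n + 2) - (Mn w (n + 1) + Mn w n)| / fl (n + 2)) atTop (𝓝 0) := by
  have h1 : Tendsto (fun n => (2 / 3) * max (un w (n + 1)) (un w n) + err w n) atTop (𝓝 0) := by
    have := ((((tendsto_un w).comp (tendsto_add_atTop_nat 1)).max (tendsto_un w)).const_mul
      (2 / 3)).add (tendsto_err w)
    simpa using this
  have h2 := h1.sqrt
  rw [Real.sqrt_zero] at h2
  refine squeeze_zero (fun n => div_nonneg (abs_nonneg _) (flR_pos _).le) (fun n => ?_) h2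
  refine Real.le_sqrt_of_sq_le (le_trans ?_ (Sq_rec' w n))
  rw [div_pow, sq_abs, Sq_eq w (n + 2) (Mn w (n + 1) + Mn w n)]
  exact div_le_div_of_nonneg_right (by linarith [Sq_nonneg w (n + 2) (Mn w (n + 2))]) (sq_nonneg _)

theorem tendsto_diff (w : List Bool) :
    Tendsto (fun n => |Mn w (n + 1) / fl (n + 1) - Mn w n / fl n|) atTop (𝓝 0) := by
  refine tendsto_of_rec _ _ (fun _ => abs_nonneg _)
    ((tendsto_defect w).comp (tendsto_add_atTop_nat 1)) fun n => ?_
  simp only [Function.comp]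
  have p0 := flR_pos (n + 1)
  have p1 := flR_pos (n + 2)
  have p2 := flR_pos (n + 3)
  have f1 : (fl (n + 1) : ℝ) ≤ fl (n + 2) := by exact_mod_cast fl_mono (n + 1)
  have f3 : (fl (n + 3) : ℝ) = fl (n + 2) + fl (n + 1) := flR_succ (n + 1)
  have e : Mn w (n + 3) / fl (n + 3) - Mn w (n + 2) / fl (n + 2) =
      -((fl (n + 1) : ℝ) / fl (n + 3)) * (Mn w (n + 2) / fl (n + 2) - Mn w (n + 1) / fl (n + 1)) +
        (Mn w (n + 3) - (Mn w (n + 2) + Mn w (n + 1))) / fl (n + 3) := by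
    field_simp
    rw [f3]; ring
  have h1 : (fl (n + 1) : ℝ) / fl (n + 3) ≤ 2 / 3 := by
    rw [div_le_iff₀ p2]; linarith
  change |Mn w (n + 3) / fl (n + 3) - Mn w (n + 2) / fl (n + 2)| ≤
    2 / 3 * max |Mn w (n + 2) / fl (n + 2) - Mn w (n + 1) / fl (n + 1)| _ +
      |Mn w (n + 3) - (Mn w (n + 2) + Mn w (n + 1))| / fl (n + 3)
  rw [e]
  refine (abs_add_le _ _).trans (add_le_add ?_ ?_)
  · rw [abs_mul, abs_neg, abs_of_nonneg (by positivity)]
    exact mul_le_mul h1 (le_max_left _ _) (abs_nonneg _) (by norm_num)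
  · rw [abs_div, abs_of_pos p2]

theorem cheb (w : List Bool) (n : ℕ) (m ε : ℝ) (hε : 0 < ε) :
    (((A n).filter fun b => ε * fl n < |(occ w b : ℝ) - m * fl n|).card : ℝ) * ε ^ 2 ≤
      (un w n + (Mn w n / fl n - m) ^ 2) * cA n := by
  have p := flR_pos n
  have q := cA_pos n
  have h1 : (((A n).filter fun b => ε * fl n < |(occ w b : ℝ) - m * fl n|).card : ℝ) *
      (ε * fl n) ^ 2 ≤ ∑ v ∈ A n, ((occ w v : ℝ) - m * fl n) ^ 2 := by
    rw [← nsmul_eq_mul]
    refine (Finset.card_nsmul_le_sum _ (fun v => ((occ w v : ℝ) - m * fl n) ^ 2) _ ?_).trans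
      (Finset.sum_le_sum_of_subset_of_nonneg (Finset.filter_subset _ _) fun _ _ _ => sq_nonneg _)
    intro v hv
    have := (Finset.mem_filter.1 hv).2
    rw [← sq_abs ((occ w v : ℝ) - m * fl n)]
    exact pow_le_pow_left₀ (by positivity) this.le 2
  have h2 : ∑ v ∈ A n, ((occ w v : ℝ) - m * fl n) ^ 2 =
      (un w n + (Mn w n / fl n - m) ^ 2) * cA n * (fl n : ℝ) ^ 2 := by
    have := Sq_eq w n (m * fl n)
    rw [Sq, div_eq_iff q.ne'] at this
    rw [this, un]
    field_simp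
  rw [h2, mul_pow, ← mul_assoc] at h1
  exact le_of_mul_le_mul_right h1 (by positivity)

theorem conc (w : List Bool) (ε δ : ℝ) (hε : 0 < ε) (hδ : 0 < δ) :
    ∀ᶠ n in atTop, ∃ m : ℝ, 0 ≤ m ∧ m ≤ 1 ∧ ∀ k, (k = n ∨ k = n + 1) →
      (((A k).filter fun b => ε * fl k < |(occ w b : ℝ) - m * fl k|).card : ℝ) ≤ δ * cA k := by
  have h1 : Tendsto (fun n => un w n + |Mn w (n + 1) / fl (n + 1) - Mn w n / fl n| ^ 2) atTop
      (𝓝 0) := by simpa using (tendsto_un w).add ((tendsto_diff w).pow 2)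
  have h2 := (tendsto_un w).comp (tendsto_add_atTop_nat 1)
  have hp : 0 < δ * ε ^ 2 := by positivity
  filter_upwards [h1.eventually (gt_mem_nhds hp), h2.eventually (gt_mem_nhds hp)] with n a1 a2
  refine ⟨Mn w (n + 1) / fl (n + 1), div_nonneg (Mn_nonneg _ _) (flR_pos _).le,
    (div_le_one (flR_pos _)).2 (Mn_le _ _), ?_⟩
  rintro k (rfl | rfl)
  · have := cheb w k (Mn w (k + 1) / fl (k + 1)) ε hε
    rw [abs_sub_comm, sq_abs] at a1
    have h3 := mul_le_mul_of_nonneg_right a1.le (cA_pos k).le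
    refine le_of_mul_le_mul_right ?_ (pow_pos hε 2)
    nlinarith
  · have := cheb w (n + 1) (Mn w (n + 1) / fl (n + 1)) ε hε
    simp only [Function.comp] at a2
    rw [sub_self, zero_pow two_ne_zero, add_zero] at this
    have h3 := mul_le_mul_of_nonneg_right a2.le (cA_pos (n + 1)).le
    refine le_of_mul_le_mul_right ?_ (pow_pos hε 2)
    nlinarith

/-! ### Growth -/

theorem log_cA_ge (n : ℕ) : Real.log (cA (n + 1)) + Real.log (cA n) ≤ Real.log (cA (n + 2)) := by
  rw [← Real.log_mul (cA_pos _).ne' (cA_pos _).ne']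
  exact Real.log_le_log (mul_pos (cA_pos _) (cA_pos _)) (cA_ge n)

theorem log_cA_le (n : ℕ) :
    Real.log (cA (n + 2)) ≤ Real.log (cA (n + 1)) + Real.log (cA n) + 1 := by
  have p := mul_pos (cA_pos (n + 1)) (cA_pos n)
  have h1 : cA (n + 2) ≤ 2 * (cA (n + 1) * cA n) := by
    have := cA_le n
    have h0 : (0 : ℝ) ≤ n := Nat.cast_nonneg n
    refine le_of_mul_le_mul_left ?_ (show (0 : ℝ) < n + 1 by positivity)
    nlinarith
  have h2 := Real.log_le_log (cA_pos _) h1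
  rw [Real.log_mul two_ne_zero p.ne', Real.log_mul (cA_pos _).ne' (cA_pos _).ne'] at h2
  have := Real.log_two_lt_d9
  linarith

theorem delta_le (n : ℕ) :
    |Real.log (cA (n + 2)) * fl (n + 1) - Real.log (cA (n + 1)) * fl (n + 2)| ≤ 3 * fl (n + 1) := by
  induction n with
  | zero =>
    have h1 := log_cA_ge 0
    have h2 := log_cA_le 0
    have e0 : cA 0 = 1 := by simp [cA, A]
    have e1 : cA 1 = 1 := by simp [cA, A]
    simp only [zero_add, e0, e1, Real.log_one, fl] at *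
    rw [abs_le]
    push_cast
    constructor <;> linarith
  | succ n ih =>
    have h1 := log_cA_ge (n + 1)
    have h2 := log_cA_le (n + 1)
    have f3 := flR_succ (n + 1)
    have f4 : 3 * (fl (n + 1) : ℝ) ≤ 2 * fl (n + 2) := by exact_mod_cast three_fl_le n
    have p := flR_pos (n + 2)
    rw [abs_le] at ih ⊢
    rw [f3]
    constructor <;> nlinarith

theorem growth (H : ℝ) (hH : ∀ η > 0, ∀ᶠ m in atTop, Real.log (cA m) ≤ (H + η) * fl m) (n : ℕ) :
    Real.log (cA (n + 1)) ≤ H * fl (n + 1) + 3 := by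
  set κ := min (Real.log (cA (n + 1)) / fl (n + 1)) (Real.log (cA (n + 2)) / fl (n + 2))
  have key : ∀ k, κ * fl (n + 1 + k) ≤ Real.log (cA (n + 1 + k)) ∧
      κ * fl (n + 1 + k + 1) ≤ Real.log (cA (n + 1 + k + 1)) := by
    intro k
    induction k with
    | zero =>
      exact ⟨(le_div_iff₀ (flR_pos _)).1 (min_le_left _ _),
        (le_div_iff₀ (flR_pos _)).1 (min_le_right _ _)⟩
    | succ k ih =>
      refine ⟨ih.2, ?_⟩
      have h1 := log_cA_ge (n + 1 + k)
      have h2 := flR_succ (n + 1 + k)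
      change κ * fl (n + 1 + k + 2) ≤ Real.log (cA (n + 1 + k + 2))
      rw [h2]; linarith [ih.1, ih.2]
  have hκ : κ ≤ H := by
    refine le_of_forall_pos_le_add fun η hη => ?_
    obtain ⟨N, hN⟩ := eventually_atTop.1 (hH η hη)
    have h1 := hN (n + 1 + N) (by omega)
    exact le_of_mul_le_mul_right ((key N).1.trans h1) (flR_pos _)
  have p1 := flR_pos (n + 1)
  have p2 := flR_pos (n + 2)
  rcases min_le_iff.1 hκ with h | h
  · rw [div_le_iff₀ p1] at h; linarith
  · rw [div_le_iff₀ p2] at h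
    have h2 := (abs_le.1 (delta_le n)).1
    have f1 : (fl (n + 1) : ℝ) ≤ fl (n + 2) := by exact_mod_cast fl_mono (n + 1)
    refine le_of_mul_le_mul_right ?_ p2
    nlinarith

end Pool.Agent.Lib.MP_ef06cf_an
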