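import Mathlib
import Pool.Agent.Lib.MP_ef06cf_an.Conc

set_option autoImplicit false

open Finset Filter Topology

namespace Pool.Agent.Lib.MP_ef06cf_an

theorem renewal (B : Finset (List Bool)) (bad : List Bool → Bool) (t κ : ℝ)
    (hne : ∀ b ∈ B, b ≠ [])
    (hB : ∑ b ∈ B, Real.exp (t * (if bad b then 1 else 0)) * Real.exp (-(κ * b.length)) ≤ 1)
    (M : ℕ) : ∀ (U : Finset (List Bool)) (φ : List Bool → ℕ),
      (∀ u ∈ U, u.length = M ∧ ∃ l : List (List Bool), (∀ b ∈ l, b ∈ B) ∧ u = l.flatten ∧
        φ u = l.countP bad) →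
      ∑ u ∈ U, Real.exp (t * φ u) ≤ Real.exp (κ * M) := by
  classical
  induction M using Nat.strong_induction_on with
  | _ M ih =>
    intro U φ hU
    rcases Nat.eq_zero_or_pos M with rfl | hM
    · have h1 : U ⊆ {[]} := fun u hu => by
        simpa using List.length_eq_zero_iff.1 (hU u hu).1
      have h2 : ∀ u ∈ U, Real.exp (t * φ u) ≤ 1 := by
        intro u hu
        obtain ⟨h3, l, h4, h5, h6⟩ := hU u hu
        have : l = [] := by
          cases l with
          | nil => rfl
          | cons b l =>
            exfalso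
            have h7 := hne b (h4 b (by simp))
            rw [h5] at h3
            simp only [List.flatten_cons, List.length_append] at h3
            exact h7 (List.length_eq_zero_iff.1 (by omega))
        rw [h6, this]; simp
      refine (Finset.sum_le_card_nsmul _ _ 1 h2).trans ?_
      have := Finset.card_le_card h1
      simp only [Finset.card_singleton] at this
      simp only [nsmul_eq_mul, mul_one, Nat.cast_zero, mul_zero, Real.exp_zero]
      exact_mod_cast this
    · have hex : ∀ u, ∃ b : List Bool, u ∈ U → b ∈ B ∧ ∃ l : List (List Bool),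
          (∀ c ∈ l, c ∈ B) ∧ u = b ++ l.flatten ∧
            φ u = l.countP bad + (if bad b then 1 else 0) := by
        intro u
        by_cases hu : u ∈ U
        · obtain ⟨h3, l, h4, h5, h6⟩ := hU u hu
          cases l with
          | nil => rw [h5] at h3; simp at h3; omega
          | cons b l =>
            refine ⟨b, fun _ => ⟨h4 b (by simp), l, fun c hc => h4 c (by simp [hc]),
              by simpa using h5, ?_⟩⟩
            rw [h6, List.countP_cons]
        · exact ⟨[], fun h => absurd h hu⟩
      choose β hβ using hex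
      rw [← Finset.sum_fiberwise_of_maps_to (g := β) (t := B) fun u hu => (hβ u hu).1]
      have key : ∀ b ∈ B, ∑ u ∈ U with β u = b, Real.exp (t * φ u) ≤
          Real.exp (t * (if bad b then 1 else 0)) * Real.exp (-(κ * b.length)) *
            Real.exp (κ * M) := by
        intro b hb
        rcases (U.filter fun u => β u = b).eq_empty_or_nonempty with he | ⟨u0, hu0⟩
        · rw [he, Finset.sum_empty]; positivity
        have hbM : b.length ≤ M := by
          obtain ⟨h1, h2⟩ := Finset.mem_filter.1 hu0
          obtain ⟨-, l, -, h3, -⟩ := hβ u0 h1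
          rw [← (hU u0 h1).1, h3, h2]; simp
        have hb0 : 0 < b.length := List.length_pos_iff.2 (hne b hb)
        have hpre : ∀ u ∈ U.filter fun u => β u = b, b ++ u.drop b.length = u := by
          intro u hu
          obtain ⟨h1, h2⟩ := Finset.mem_filter.1 hu
          obtain ⟨-, l, -, h3, -⟩ := hβ u h1
          rw [h2] at h3
          rw [h3, List.drop_left]
        have h1 := ih (M - b.length) (by omega)
          ((U.filter fun u => β u = b).image fun u => u.drop b.length)
          (fun u' => φ (b ++ u') - (if bad b then 1 else 0)) (by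
            intro u' hu'
            obtain ⟨u, hu, rfl⟩ := Finset.mem_image.1 hu'
            obtain ⟨h1, h2⟩ := Finset.mem_filter.1 hu
            obtain ⟨-, l, h4, h3, h5⟩ := hβ u h1
            rw [h2] at h3 h5
            refine ⟨by rw [List.length_drop, (hU u h1).1], l, h4, by rw [h3, List.drop_left], ?_⟩
            rw [hpre u hu, h5]; omega)
        rw [Finset.sum_image (fun u hu v hv e => by
          rw [← hpre u hu, ← hpre v hv]; exact congrArg (b ++ ·) e)] at h1
        have h2 : ∑ u ∈ U with β u = b, Real.exp (t * φ u) =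
            Real.exp (t * (if bad b then 1 else 0)) * ∑ u ∈ U with β u = b,
              Real.exp (t * ((φ (b ++ u.drop b.length) - (if bad b then 1 else 0) : ℕ) : ℝ)) := by
          rw [Finset.mul_sum]
          refine Finset.sum_congr rfl fun u hu => ?_
          rw [hpre u hu, ← Real.exp_add]
          obtain ⟨h1, h2⟩ := Finset.mem_filter.1 hu
          obtain ⟨-, l, -, -, h5⟩ := hβ u h1
          rw [h2] at h5
          congr 1
          rw [h5, Nat.add_sub_cancel]
          push_cast
          split_ifs <;> ring
        rw [h2, mul_assoc, ← Real.exp_add]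
        refine mul_le_mul_of_nonneg_left (h1.trans (le_of_eq ?_)) (Real.exp_pos _).le
        rw [Nat.cast_sub hbM]
        congr 1; ring
      refine (Finset.sum_le_sum key).trans ?_
      rw [← Finset.sum_mul]
      exact mul_le_of_le_one_left (Real.exp_pos _).le hB

theorem dev_le_length (w u : List Bool) (m : ℝ) (h0 : 0 ≤ m) (h1 : m ≤ 1) :
    |(occ w u : ℝ) - m * u.length| ≤ u.length := by
  have a1 : (occ w u : ℝ) ≤ u.length := by exact_mod_cast occ_le_length w u
  have a2 : (0 : ℝ) ≤ occ w u := Nat.cast_nonneg _
  have a3 : (0 : ℝ) ≤ u.length := Nat.cast_nonneg _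
  rw [abs_le]; constructor <;> nlinarith

theorem dev_append (w u v : List Bool) (m : ℝ) :
    |(occ w (u ++ v) : ℝ) - m * (u ++ v).length| ≤
      |(occ w u : ℝ) - m * u.length| + |(occ w v : ℝ) - m * v.length| + w.length := by
  have b1 : (occ w u : ℝ) + occ w v ≤ occ w (u ++ v) := by exact_mod_cast occ_append_ge w v u
  have b2 : (occ w (u ++ v) : ℝ) ≤ occ w u + occ w v + w.length := by
    exact_mod_cast occ_append_le w u v
  have b3 : (0 : ℝ) ≤ w.length := Nat.cast_nonneg _
  rw [List.length_append]
  push_cast
  have c1 := le_abs_self ((occ w u : ℝ) - m * u.length)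
  have c2 := neg_abs_le ((occ w u : ℝ) - m * u.length)
  have c3 := le_abs_self ((occ w v : ℝ) - m * v.length)
  have c4 := neg_abs_le ((occ w v : ℝ) - m * v.length)
  rw [abs_le]; constructor <;> nlinarith

theorem dev_flatten (w : List Bool) (m ε : ℝ) (h0 : 0 ≤ m) (h1 : m ≤ 1) (hε : 0 ≤ ε) (F : ℕ)
    (bad : List Bool → Bool)
    (hbad : ∀ b, bad b = false → |(occ w b : ℝ) - m * b.length| ≤ ε * b.length) :
    ∀ l : List (List Bool), (∀ b ∈ l, b.length ≤ F) →
      |(occ w l.flatten : ℝ) - m * l.flatten.length| ≤
        ε * l.flatten.length + F * l.countP bad + w.length * l.length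
  | [], _ => by simp [occ]
  | b :: l, hl => by
    have ih := dev_flatten w m ε h0 h1 hε F bad hbad l fun c hc => hl c (by simp [hc])
    have h2 := dev_append w b l.flatten m
    rw [List.flatten_cons]
    refine h2.trans ?_
    rw [List.length_append, List.countP_cons, List.length_cons]
    push_cast
    have hb : (b.length : ℝ) ≤ F := by exact_mod_cast hl b (by simp)
    have hb0 : (0 : ℝ) ≤ b.length := Nat.cast_nonneg _
    cases hbb : bad b with
    | false =>
      have := hbad b hbb
      simp only [Bool.false_eq_true, if_false]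
      nlinarith
    | true =>
      have := dev_le_length w b m h0 h1
      simp only [if_true]
      nlinarith [mul_nonneg hε hb0]

theorem length_flatten_ge (f : ℕ) : ∀ l : List (List Bool), (∀ b ∈ l, f ≤ b.length) →
    f * l.length ≤ l.flatten.length
  | [], _ => by simp
  | b :: l, hl => by
    have ih := length_flatten_ge f l fun c hc => hl c (by simp [hc])
    have := hl b (by simp)
    rw [List.flatten_cons, List.length_append, List.length_cons]
    nlinarith

theorem count_main (w : List Bool) (H m ε t : ℝ) (n : ℕ) (hH : 0 ≤ H) (h0 : 0 ≤ m) (h1 : m ≤ 1)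
    (hε : 0 ≤ ε) (hg : ∀ k, (k = n ∨ k = n + 1) → Real.log (cA k) ≤ H * fl k + 3)
    (hc : ∀ k, (k = n ∨ k = n + 1) →
      (((A k).filter fun b => ε * fl k < |(occ w b : ℝ) - m * fl k|).card : ℝ) ≤
        Real.exp (-t) * cA k) :
    ∃ C : ℝ, 0 < C ∧ ∃ φ : List Bool → ℕ,
      (∀ u, Legal u → |(occ w u : ℝ) - m * u.length| ≤
        ε * u.length + fl (n + 1) * φ u + w.length * (u.length / fl n + 2) + 2 * fl (n + 1)) ∧
      ∀ (N : ℕ) (U : Finset (List Bool)), (∀ u ∈ U, Legal u ∧ u.length = N) →
        ∑ u ∈ U, Real.exp (t * φ u) ≤ C * Real.exp ((H + 5 / fl n) * N) := by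
  classical
  set bad : List Bool → Bool := fun b => decide (ε * b.length < |(occ w b : ℝ) - m * b.length|)
    with hbad
  set κ := H + 5 / fl n with hκ
  have p0 := flR_pos n
  have hκ0 : 0 ≤ κ := by positivity
  have hk : ∀ k, (k = n ∨ k = n + 1) →
      ∑ b ∈ A k, Real.exp (t * (if bad b then 1 else 0)) * Real.exp (-(κ * b.length)) ≤ 1 / 2 := by
    intro k hk
    have e1 : ∑ b ∈ A k, Real.exp (t * (if bad b then 1 else 0)) * Real.exp (-(κ * b.length)) =
        (∑ b ∈ A k, Real.exp (t * (if bad b then 1 else 0))) * Real.exp (-(κ * fl k)) := by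
      rw [Finset.sum_mul]
      exact Finset.sum_congr rfl fun b hb => by rw [length_A _ hb]
    have e2 : ∑ b ∈ A k, Real.exp (t * (if bad b then 1 else 0)) ≤ 2 * cA k := by
      have : ∀ b ∈ A k, Real.exp (t * (if bad b then 1 else 0)) ≤
          1 + if ε * fl k < |(occ w b : ℝ) - m * fl k| then Real.exp t else 0 := by
        intro b hb
        simp only [hbad, length_A _ hb, decide_eq_true_eq]
        split_ifs <;> simp
      refine (Finset.sum_le_sum this).trans ?_
      rw [Finset.sum_add_distrib, ← Finset.sum_filter, Finset.sum_const, Finset.sum_const,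
        nsmul_eq_mul, nsmul_eq_mul, mul_one]
      have h2 := mul_le_mul_of_nonneg_right (hc k hk) (Real.exp_pos t).le
      have h3 : Real.exp (-t) * cA k * Real.exp t = cA k := by
        rw [Real.exp_neg]; field_simp
      rw [h3] at h2
      unfold cA at *
      linarith
    have e3 : cA k * Real.exp (-(κ * fl k)) ≤ 1 / 4 := by
      have f1 : (fl n : ℝ) ≤ fl k := by
        rcases hk with rfl | rfl
        · exact le_rfl
        · exact_mod_cast fl_mono n
      have f2 : 5 ≤ 5 / (fl n : ℝ) * fl k := by
        rw [div_mul_eq_mul_div, le_div_iff₀ p0]; linarith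
      have f3 : cA k * Real.exp (-(κ * fl k)) ≤ Real.exp (-2) := by
        rw [← Real.exp_log (cA_pos k), ← Real.exp_add]
        refine Real.exp_le_exp.2 ?_
        have := hg k hk
        rw [hκ]; linarith
      have f4 : (4 : ℝ) ≤ Real.exp 2 := by
        have := Real.add_one_le_exp 1
        rw [show (2 : ℝ) = 1 + 1 by norm_num, Real.exp_add]
        nlinarith
      refine f3.trans ?_
      rw [Real.exp_neg, ← one_div]
      exact one_div_le_one_div_of_le (by norm_num) f4
    rw [e1]
    have := mul_le_mul_of_nonneg_right e2 (Real.exp_pos (-(κ * fl k))).le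
    linarith
  have hB : ∑ b ∈ A n ∪ A (n + 1),
      Real.exp (t * (if bad b then 1 else 0)) * Real.exp (-(κ * b.length)) ≤ 1 := by
    have := Finset.sum_union_inter (s₁ := A n) (s₂ := A (n + 1))
      (f := fun b => Real.exp (t * (if bad b then 1 else 0)) * Real.exp (-(κ * b.length)))
    have h2 : 0 ≤ ∑ b ∈ A n ∩ A (n + 1),
        Real.exp (t * (if bad b then 1 else 0)) * Real.exp (-(κ * b.length)) :=
      Finset.sum_nonneg fun _ _ => by positivity
    linarith [hk n (Or.inl rfl), hk (n + 1) (Or.inr rfl)]
  have hne : ∀ b ∈ A n ∪ A (n + 1), b ≠ [] := fun b hb => by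
    rcases Finset.mem_union.1 hb with h | h <;> exact ne_nil_A h
  have hex : ∀ u, ∃ (s p : List Bool) (l : List (List Bool)), Legal u →
      s.length ≤ fl (n + 1) ∧ p.length ≤ fl (n + 1) ∧
      (∀ b ∈ l, b ∈ A n ∪ A (n + 1)) ∧ u = s ++ l.flatten ++ p := by
    intro u
    by_cases hu : Legal u
    · obtain ⟨s, p, l, h⟩ := hu.parse n
      exact ⟨s, p, l, fun _ => h⟩
    · exact ⟨[], [], [], fun h => absurd h hu⟩
  choose s p l hspl using hex
  set S := (List.finite_length_le Bool (fl (n + 1))).toFinset with hS
  have hSne : S.Nonempty := ⟨[], by simp [hS]⟩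
  refine ⟨(S ×ˢ S).card, by exact_mod_cast (hSne.product hSne).card_pos,
    fun u => (l u).countP bad, fun u hu => ?_, fun N U hU => ?_⟩
  · obtain ⟨a1, a2, a3, a4⟩ := hspl u hu
    have hl1 : ∀ b ∈ l u, b.length ≤ fl (n + 1) := fun b hb => by
      rcases Finset.mem_union.1 (a3 b hb) with h | h
      · rw [length_A _ h]; exact fl_mono n
      · rw [length_A _ h]
    have hl2 : ∀ b ∈ l u, fl n ≤ b.length := fun b hb => by
      rcases Finset.mem_union.1 (a3 b hb) with h | h
      · rw [length_A _ h]
      · rw [length_A _ h]; exact fl_mono n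
    have b1 := dev_flatten w m ε h0 h1 hε (fl (n + 1)) bad (fun b hb => by
      simpa [hbad] using hb) (l u) hl1
    have b2 : (fl n : ℝ) * (l u).length ≤ (l u).flatten.length := by
      exact_mod_cast length_flatten_ge _ _ hl2
    have b3 := dev_append w (s u ++ (l u).flatten) (p u) m
    have b4 := dev_append w (s u) (l u).flatten m
    have b5 := dev_le_length w (s u) m h0 h1
    have b6 := dev_le_length w (p u) m h0 h1
    have b7 : ((l u).flatten.length : ℝ) ≤ u.length := by
      have := congrArg List.length a4
      simp only [List.length_append] at this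
      exact_mod_cast (by omega : (l u).flatten.length ≤ u.length)
    rw [← a4] at b3
    have b8 : ((s u).length : ℝ) ≤ fl (n + 1) := by exact_mod_cast a1
    have b9 : ((p u).length : ℝ) ≤ fl (n + 1) := by exact_mod_cast a2
    have b10 : ((l u).length : ℝ) ≤ u.length / fl n := by
      rw [le_div_iff₀ p0]; linarith
    have b11 : (0 : ℝ) ≤ w.length := Nat.cast_nonneg _
    nlinarith [mul_le_mul_of_nonneg_left b10 b11, mul_le_mul_of_nonneg_left b7 hε]
  · rw [← Finset.sum_fiberwise_of_maps_to (g := fun u => (s u, p u)) (t := S ×ˢ S) fun u hu => by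
      obtain ⟨a1, a2, -⟩ := hspl u (hU u hu).1
      simp [hS, a1, a2]]
    rw [← nsmul_eq_mul]
    refine Finset.sum_le_card_nsmul _ _ _ ?_
    rintro ⟨s0, p0⟩ -
    have hdec : ∀ u ∈ U.filter fun u => (s u, p u) = (s0, p0), u = s0 ++ (l u).flatten ++ p0 := by
      intro u hu
      obtain ⟨c1, c2⟩ := Finset.mem_filter.1 hu
      obtain ⟨-, -, -, a4⟩ := hspl u (hU u c1).1
      obtain ⟨c3, c4⟩ := Prod.mk.inj c2
      rw [← c3, ← c4]; exact a4
    have h2 := renewal _ bad t κ hne hB (N - s0.length - p0.length)
      ((U.filter fun u => (s u, p u) = (s0, p0)).image fun u => (l u).flatten)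
      (fun x => (l (s0 ++ x ++ p0)).countP bad) (by
        intro x hx
        obtain ⟨u, hu, rfl⟩ := Finset.mem_image.1 hx
        have c1 := (Finset.mem_filter.1 hu).1
        have c2 := congrArg List.length (hdec u hu)
        simp only [List.length_append] at c2
        have c3 := (hU u c1).2
        refine ⟨by omega, l u, (hspl u (hU u c1).1).2.2.1, rfl, ?_⟩
        rw [← hdec u hu])
    rw [Finset.sum_image (fun u hu v hv e => by
      rw [hdec u hu, hdec v hv]; exact congrArg (s0 ++ · ++ p0) e)] at h2
    refine le_trans (le_of_eq ?_) (h2.trans (Real.exp_le_exp.2 ?_))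
    · exact Finset.sum_congr rfl fun u hu => by rw [← hdec u hu]
    · exact mul_le_mul_of_nonneg_left (by exact_mod_cast (by omega)) hκ0

end Pool.Agent.Lib.MP_ef06cf_an
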