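import Mathlib

set_option autoImplicit false

open MeasureTheory Finset Real

namespace Pool.Agent.Lib.MP_ef06cf_an

/-- Gibbs inequality. -/
theorem gibbs {α : Type*} [Fintype α] (ρ φ : α → ℝ) (T : Finset α) (Z : ℝ)
    (h0 : ∀ a, 0 ≤ ρ a) (h1 : ∑ a, ρ a = 1) (hT : ∀ a, ρ a ≠ 0 → a ∈ T)
    (hZ : ∑ a ∈ T, Real.exp (φ a) ≤ Z) (hZ0 : 0 < Z) :
    ∑ a, negMulLog (ρ a) + ∑ a, ρ a * φ a ≤ Real.log Z := by
  classical
  have key : ∀ a, negMulLog (ρ a) + ρ a * φ a - ρ a * Real.log Z ≤
      (if a ∈ T then Real.exp (φ a) / Z else 0) - ρ a := by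
    intro a
    rcases (h0 a).eq_or_lt with h | h
    · rw [← h]
      simp only [negMulLog_zero, zero_mul, add_zero, sub_zero]
      split_ifs
      · positivity
      · exact le_rfl
    · rw [if_pos (hT a h.ne')]
      have hpos : 0 < Real.exp (φ a) / Z / ρ a := by positivity
      have := Real.log_le_sub_one_of_pos hpos
      rw [Real.log_div (by positivity) h.ne', Real.log_div (by positivity) hZ0.ne',
        Real.log_exp] at this
      have h2 := mul_le_mul_of_nonneg_left this h.le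
      have h3 : ρ a * (Real.exp (φ a) / Z / ρ a - 1) = Real.exp (φ a) / Z - ρ a := by
        field_simp
      rw [h3] at h2
      unfold negMulLog
      nlinarith
  have hs := Finset.sum_le_sum (s := Finset.univ) fun a _ => key a
  rw [Finset.sum_sub_distrib, Finset.sum_add_distrib, Finset.sum_sub_distrib, ← Finset.sum_mul,
    h1, Finset.sum_ite_mem, Finset.univ_inter, ← Finset.sum_div] at hs
  have : (∑ a ∈ T, Real.exp (φ a)) / Z ≤ 1 := (div_le_one hZ0).2 hZ
  linarith

theorem negMulLog_sum_le {ι : Type*} (s : Finset ι) (x : ι → ℝ) (hx : ∀ i ∈ s, 0 ≤ x i) :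
    negMulLog (∑ i ∈ s, x i) ≤ ∑ i ∈ s, negMulLog (x i) := by
  have : negMulLog (∑ i ∈ s, x i) = ∑ i ∈ s, -(x i) * Real.log (∑ i ∈ s, x i) := by
    rw [← Finset.sum_mul, Finset.sum_neg_distrib]; rfl
  rw [this]
  refine Finset.sum_le_sum fun i hi => ?_
  rcases (hx i hi).eq_or_lt with h | h
  · rw [← h]; simp
  · have h1 : x i ≤ ∑ i ∈ s, x i := Finset.single_le_sum hx hi
    have := Real.log_le_log h h1
    unfold negMulLog
    nlinarith

variable {Ω : Type*} [MeasurableSpace Ω]

/-- Shannon entropy of a finite-valued function. -/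
noncomputable def Hent (μ : Measure Ω) {α : Type*} [Fintype α] (f : Ω → α) : ℝ :=
  ∑ a, negMulLog (μ.real (f ⁻¹' {a}))

/-- All fibres are measurable. -/
def Mf {α : Type*} (f : Ω → α) : Prop := ∀ a, MeasurableSet (f ⁻¹' {a})

theorem Mf.preimage {α : Type*} [Finite α] {f : Ω → α} (hf : Mf f) (s : Set α) :
    MeasurableSet (f ⁻¹' s) := by
  have : f ⁻¹' s = ⋃ a ∈ s, f ⁻¹' {a} := by ext x; simp
  rw [this]
  exact MeasurableSet.biUnion (Set.toFinite s).countable fun a _ => hf a

theorem Mf.comp {α β : Type*} [Finite α] {f : Ω → α} (hf : Mf f) (g : α → β) :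
    Mf (fun x => g (f x)) := fun b => hf.preimage (g ⁻¹' {b})

theorem Mf.pair {α β : Type*} {f : Ω → α} {g : Ω → β} (hf : Mf f) (hg : Mf g) :
    Mf (fun x => (f x, g x)) := by
  rintro ⟨a, b⟩
  have : (fun x => (f x, g x)) ⁻¹' {(a, b)} = f ⁻¹' {a} ∩ g ⁻¹' {b} := by ext x; simp
  rw [this]; exact (hf a).inter (hg b)

theorem Mf.pi {ι α : Type*} [Finite ι] {g : ι → Ω → α} (hg : ∀ j, Mf (g j)) :
    Mf (fun x j => g j x) := by
  intro w
  have : (fun x j => g j x) ⁻¹' {w} = ⋂ j, g j ⁻¹' {w j} := by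
    ext x; simp [funext_iff]
  rw [this]; exact MeasurableSet.iInter fun j => hg j _

theorem Mf.comp_meas {Ω' : Type*} [MeasurableSpace Ω'] {α : Type*} {f : Ω → α} (hf : Mf f)
    {T : Ω' → Ω} (hT : Measurable T) : Mf (fun x => f (T x)) := fun a => hT (hf a)

theorem real_preimage_eq_sum (μ : Measure Ω) [IsFiniteMeasure μ] {α : Type*} {f : Ω → α}
    (hf : Mf f) (s : Finset α) : μ.real (f ⁻¹' s) = ∑ a ∈ s, μ.real (f ⁻¹' {a}) :=
  (sum_measureReal_preimage_singleton s fun a _ => hf a).symm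

theorem sum_real_eq_one (μ : Measure Ω) [IsProbabilityMeasure μ] {α : Type*} [Fintype α]
    {f : Ω → α} (hf : Mf f) : ∑ a, μ.real (f ⁻¹' {a}) = 1 := by
  rw [← real_preimage_eq_sum μ hf]; simp

theorem real_comp_eq_sum (μ : Measure Ω) [IsFiniteMeasure μ] {α β : Type*} [Fintype α]
    [DecidableEq β] {f : Ω → α} (hf : Mf f) (g : α → β) (b : β) :
    μ.real ((fun x => g (f x)) ⁻¹' {b}) =
      ∑ a ∈ Finset.univ.filter (fun a => g a = b), μ.real (f ⁻¹' {a}) := by
  rw [← real_preimage_eq_sum μ hf]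
  congr 1; ext x; simp

theorem Hent_nonneg (μ : Measure Ω) [IsProbabilityMeasure μ] {α : Type*} [Fintype α]
    (f : Ω → α) : 0 ≤ Hent μ f :=
  Finset.sum_nonneg fun _ _ => negMulLog_nonneg measureReal_nonneg measureReal_le_one

theorem Hent_comp_le (μ : Measure Ω) [IsFiniteMeasure μ] {α β : Type*} [Fintype α] [Fintype β]
    {f : Ω → α} (hf : Mf f) (g : α → β) : Hent μ (fun x => g (f x)) ≤ Hent μ f := by
  classical
  unfold Hent
  rw [← Finset.sum_fiberwise (s := Finset.univ) (g := g)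
    (f := fun a => negMulLog (μ.real (f ⁻¹' {a})))]
  refine Finset.sum_le_sum fun b _ => ?_
  rw [real_comp_eq_sum μ hf g b]
  exact negMulLog_sum_le _ _ fun _ _ => measureReal_nonneg

theorem Hent_le_of_factor (μ : Measure Ω) [IsFiniteMeasure μ] {α β : Type*} [Fintype α]
    [Fintype β] {f : Ω → α} {h : Ω → β} (hf : Mf f) (g : α → β) (e : ∀ x, h x = g (f x)) :
    Hent μ h ≤ Hent μ f := by
  have : h = fun x => g (f x) := funext e
  rw [this]; exact Hent_comp_le μ hf g

theorem Hent_gibbs (μ : Measure Ω) [IsProbabilityMeasure μ] {α : Type*} [Fintype α]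
    {f : Ω → α} (hf : Mf f) (φ : α → ℝ) (T : Finset α) (Z : ℝ)
    (hT : ∀ a, μ.real (f ⁻¹' {a}) ≠ 0 → a ∈ T)
    (hZ : ∑ a ∈ T, Real.exp (φ a) ≤ Z) (hZ0 : 0 < Z) :
    Hent μ f + ∑ a, μ.real (f ⁻¹' {a}) * φ a ≤ Real.log Z :=
  gibbs _ φ T Z (fun _ => measureReal_nonneg) (sum_real_eq_one μ hf) hT hZ hZ0

theorem Hent_le_log_card (μ : Measure Ω) [IsProbabilityMeasure μ] {α : Type*} [Fintype α]
    {f : Ω → α} (hf : Mf f) (T : Finset α) (hT : ∀ a, μ.real (f ⁻¹' {a}) ≠ 0 → a ∈ T) :
    Hent μ f ≤ Real.log T.card := by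
  have hne : T.Nonempty := by
    by_contra h
    have h1 := sum_real_eq_one μ hf
    have : ∑ a, μ.real (f ⁻¹' {a}) = 0 := Finset.sum_eq_zero fun a _ => by
      by_contra h2
      exact h ⟨a, hT a h2⟩
    linarith
  have := Hent_gibbs μ hf (fun _ => 0) T T.card hT (by simp)
    (by exact_mod_cast hne.card_pos)
  simpa using this

theorem Hent_pair_le (μ : Measure Ω) [IsProbabilityMeasure μ] {α β : Type*} [Fintype α]
    [Fintype β] {f : Ω → α} {g : Ω → β} (hf : Mf f) (hg : Mf g) :
    Hent μ (fun x => (f x, g x)) ≤ Hent μ f + Hent μ g := by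
  classical
  set p : α → ℝ := fun a => μ.real (f ⁻¹' {a}) with hp
  set q : β → ℝ := fun b => μ.real (g ⁻¹' {b}) with hq
  set r : α × β → ℝ := fun c => μ.real ((fun x => (f x, g x)) ⁻¹' {c}) with hr
  have hfg := hf.pair hg
  have m1 : ∀ a, p a = ∑ b, r (a, b) := by
    intro a
    have := real_comp_eq_sum μ hfg Prod.fst a
    simp only [hp]
    rw [this, Finset.sum_filter, Fintype.sum_prod_type]
    rw [Finset.sum_eq_single a]
    · simp [hr]
    · intro a' _ h; simp [h]
    · simp
  have m2 : ∀ b, q b = ∑ a, r (a, b) := by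
    intro b
    have := real_comp_eq_sum μ hfg Prod.snd b
    simp only [hq]
    rw [this, Finset.sum_filter, Fintype.sum_prod_type_right]
    rw [Finset.sum_eq_single b]
    · simp [hr]
    · intro a' _ h; simp [h]
    · simp
  have r0 : ∀ c, 0 ≤ r c := fun _ => measureReal_nonneg
  have p0 : ∀ c, 0 ≤ p c := fun _ => measureReal_nonneg
  have q0 : ∀ c, 0 ≤ q c := fun _ => measureReal_nonneg
  have := Hent_gibbs μ hfg (fun c => Real.log (p c.1) + Real.log (q c.2))
    (Finset.univ.filter fun c => 0 < p c.1 ∧ 0 < q c.2) 1 ?_ ?_ one_pos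
  · rw [Real.log_one] at this
    have e : ∑ c : α × β, r c * (Real.log (p c.1) + Real.log (q c.2)) =
        -(Hent μ f + Hent μ g) := by
      simp only [mul_add, Finset.sum_add_distrib]
      have e1 : ∑ c : α × β, r c * Real.log (p c.1) = -Hent μ f := by
        rw [Fintype.sum_prod_type, Hent, ← Finset.sum_neg_distrib]
        refine Finset.sum_congr rfl fun a _ => ?_
        simp only
        rw [← Finset.sum_mul, ← m1]
        simp [negMulLog, hp]
      have e2 : ∑ c : α × β, r c * Real.log (q c.2) = -Hent μ g := by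
        rw [Fintype.sum_prod_type_right, Hent, ← Finset.sum_neg_distrib]
        refine Finset.sum_congr rfl fun a _ => ?_
        simp only
        rw [← Finset.sum_mul, ← m2]
        simp [negMulLog, hq]
      rw [e1, e2]; ring
    simp only [hr] at e
    linarith
  · rintro ⟨a, b⟩ h
    have hpos : 0 < r (a, b) := lt_of_le_of_ne (r0 _) (Ne.symm h)
    simp only [Finset.mem_filter, Finset.mem_univ, true_and]
    constructor
    · rw [m1]
      exact lt_of_lt_of_le hpos
        (Finset.single_le_sum (f := fun b => r (a, b)) (fun _ _ => r0 _) (Finset.mem_univ b))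
    · rw [m2]
      exact lt_of_lt_of_le hpos
        (Finset.single_le_sum (f := fun a => r (a, b)) (fun _ _ => r0 _) (Finset.mem_univ a))
  · calc ∑ c ∈ Finset.univ.filter (fun c : α × β => 0 < p c.1 ∧ 0 < q c.2),
          Real.exp (Real.log (p c.1) + Real.log (q c.2))
        = ∑ c ∈ Finset.univ.filter (fun c : α × β => 0 < p c.1 ∧ 0 < q c.2), p c.1 * q c.2 := by
          refine Finset.sum_congr rfl fun c hc => ?_
          simp only [Finset.mem_filter, Finset.mem_univ, true_and] at hc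
          rw [Real.exp_add, Real.exp_log hc.1, Real.exp_log hc.2]
      _ ≤ ∑ c : α × β, p c.1 * q c.2 :=
          Finset.sum_le_sum_of_subset_of_nonneg (Finset.filter_subset _ _)
            fun c _ _ => mul_nonneg (p0 _) (q0 _)
      _ = 1 := by
          rw [Fintype.sum_prod_type]
          simp only [← Finset.mul_sum]
          rw [← Finset.sum_mul, sum_real_eq_one μ hf, sum_real_eq_one μ hg, one_mul]

theorem Hent_le_add (μ : Measure Ω) [IsProbabilityMeasure μ] {α β γ : Type*} [Fintype α]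
    [Fintype β] [Fintype γ] {f : Ω → α} {g : Ω → β} {h : Ω → γ} (hf : Mf f) (hg : Mf g)
    (k : α → β → γ) (e : ∀ x, h x = k (f x) (g x)) : Hent μ h ≤ Hent μ f + Hent μ g :=
  (Hent_le_of_factor μ (hf.pair hg) (fun c => k c.1 c.2) e).trans (Hent_pair_le μ hf hg)

theorem Hent_pi_le (μ : Measure Ω) [IsProbabilityMeasure μ] {α : Type*} [Fintype α] :
    ∀ (n : ℕ) (g : Fin n → Ω → α), (∀ j, Mf (g j)) →
      Hent μ (fun x j => g j x) ≤ ∑ j, Hent μ (g j) := by
  intro n
  induction n with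
  | zero =>
    intro g hg
    have := Hent_le_log_card μ (Mf.pi hg) Finset.univ (fun _ _ => Finset.mem_univ _)
    simpa using this
  | succ n ih =>
    intro g hg
    rw [Fin.sum_univ_succ]
    refine (Hent_le_add μ (hg 0) (Mf.pi fun j : Fin n => hg j.succ)
      (fun a w => (Fin.cons a w : Fin (n + 1) → α)) ?_).trans ?_
    · intro x; funext j
      refine Fin.cases ?_ (fun j => ?_) j <;> simp
    · linarith [ih (fun j => g j.succ) fun j => hg j.succ]

theorem Hent_comp_mp {μ : Measure Ω} {T : Ω → Ω} (hT : MeasurePreserving T μ μ) {α : Type*}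
    [Fintype α] {f : Ω → α} (hf : Mf f) : Hent μ (fun x => f (T x)) = Hent μ f := by
  unfold Hent
  refine Finset.sum_congr rfl fun a _ => ?_
  congr 1
  exact hT.measureReal_preimage (hf a).nullMeasurableSet

theorem avg_negMulLog_le (N : ℕ) (hN : 0 < N) (x : ℕ → ℝ) (hx : ∀ s, 0 ≤ x s) :
    ∑ s ∈ Finset.range N, negMulLog (x s) ≤
      N * negMulLog ((∑ s ∈ Finset.range N, x s) / N) := by
  have hN' : (0 : ℝ) < N := by exact_mod_cast hN
  have := concaveOn_negMulLog.le_map_sum (t := Finset.range N) (w := fun _ => (1 / N : ℝ))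
    (p := x) (fun _ _ => by positivity) (by simp; field_simp) (fun s _ => hx s)
  simp only [smul_eq_mul, ← Finset.mul_sum] at this
  rw [show (1 / N : ℝ) * ∑ s ∈ Finset.range N, x s = (∑ s ∈ Finset.range N, x s) / N by ring]
    at this
  have h2 := mul_le_mul_of_nonneg_left this hN'.le
  rwa [← mul_assoc, mul_one_div_cancel hN'.ne', one_mul] at h2

end Pool.Agent.Lib.MP_ef06cf_an
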