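import Mathlib
import Pool.Agent.Lib.MP_ef06cf_an.Count
import Pool.Agent.Lib.MP_ef06cf_an.Ent

set_option autoImplicit false

open Finset Filter Topology MeasureTheory

namespace Pool.Agent.Lib.MP_ef06cf_an

/-- The window of length n starting at a. -/
def win (a : ℤ) (n : ℕ) (x : ℤ → Bool) : Fin n → Bool := fun j => x (a + (j : ℕ))

theorem shift_iterate (k : ℕ) (x : ℤ → Bool) (i : ℤ) : shift^[k] x i = x (i + k) := by
  induction k generalizing x i with
  | zero => simp
  | succ k ih =>
    rw [Function.iterate_succ_apply, ih, shift]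
    push_cast; rw [add_assoc]

theorem win_iterate (a : ℤ) (n k : ℕ) (x : ℤ → Bool) : win a n (shift^[k] x) = win (a + k) n x := by
  funext j
  simp only [win, shift_iterate]
  congr 1; ring

theorem continuous_win (a : ℤ) (n : ℕ) : Continuous (win a n) :=
  continuous_pi fun _ => continuous_apply _

theorem isClopen_win (a : ℤ) (n : ℕ) (s : Set (Fin n → Bool)) : IsClopen (win a n ⁻¹' s) :=
  (isClopen_discrete s).preimage (continuous_win a n)

theorem mf_win (a : ℤ) (n : ℕ) : Mf (win a n) := fun w =>
  (isClopen_win a n {w}).isOpen.measurableSet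

theorem continuous_shift : Continuous shift := continuous_pi fun _ => continuous_apply _

theorem measurable_shift : Measurable shift := continuous_shift.measurable

theorem mem_XRF {x : ℤ → Bool} : x ∈ XRF ↔ ∀ a n, Legal (List.ofFn (win a n x)) := Iff.rfl

theorem XRF_eq : XRF = ⋂ (a : ℤ) (n : ℕ), win a n ⁻¹' {w | Legal (List.ofFn w)} := by
  ext x; simp [mem_XRF]

theorem isClosed_XRF : IsClosed XRF := by
  rw [XRF_eq]
  exact isClosed_iInter fun a => isClosed_iInter fun n => (isClopen_win a n _).isClosed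

theorem translate_mem {x : ℤ → Bool} (hx : x ∈ XRF) (b : ℤ) : (fun i => x (i + b)) ∈ XRF := by
  rw [mem_XRF] at hx ⊢
  intro a n
  have : win a n (fun i => x (i + b)) = win (a + b) n x := by
    funext j; simp only [win]; congr 1; ring
  rw [this]; exact hx _ _

theorem iterate_mem {x : ℤ → Bool} (hx : x ∈ XRF) (k : ℕ) : shift^[k] x ∈ XRF := by
  have : shift^[k] x = fun i => x (i + k) := funext (shift_iterate k x)
  rw [this]; exact translate_mem hx _

theorem ofFn_win_add (a : ℤ) (n m : ℕ) (x : ℤ → Bool) :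
    List.ofFn (win a (n + m) x) = List.ofFn (win a n x) ++ List.ofFn (win (a + n) m x) := by
  rw [List.ofFn_add]
  congr 2
  funext j
  simp only [win, Fin.val_natAdd]
  congr 1; push_cast; ring

theorem infix_win (a b : ℤ) (n m : ℕ) (x : ℤ → Bool) (h1 : b ≤ a) (h2 : a + n ≤ b + m) :
    List.ofFn (win a n x) <:+: List.ofFn (win b m x) := by
  obtain ⟨k, rfl⟩ := Int.le.dest h1
  obtain ⟨l, rfl⟩ : ∃ l, m = k + n + l := ⟨m - k - n, by omega⟩
  rw [ofFn_win_add, ofFn_win_add]
  exact ⟨_, _, rfl⟩

theorem exists_point_win (a : ℤ) (u : List Bool) : ∃ x, List.ofFn (win a u.length x) = u := by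
  refine ⟨fun i => u.getD (i - a).toNat false, ?_⟩
  apply List.ext_getElem (by simp)
  intro i h1 h2
  simp [win, h2]

theorem Legal.exists_point {u : List Bool} (h : Legal u) :
    ∃ x ∈ XRF, List.ofFn (win 0 u.length x) = u := by
  set C : ℕ → Set (ℤ → Bool) := fun k =>
    win (-k) (k + u.length + k) ⁻¹' {w | Legal (List.ofFn w)} ∩
      win 0 u.length ⁻¹' {w | List.ofFn w = u} with hC
  have hcl : ∀ k, IsClosed (C k) := fun k =>
    (isClopen_win _ _ _).isClosed.inter (isClopen_win _ _ _).isClosed
  obtain ⟨x, hx⟩ := IsCompact.nonempty_iInter_of_sequence_nonempty_isCompact_isClosed C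
    (fun k x hx => ⟨Legal.sub hx.1 (infix_win _ _ _ _ x (by push_cast; omega)
      (by push_cast; omega)), hx.2⟩)
    (fun k => by
      obtain ⟨l, r, hl, hr, h2⟩ := h.extend_both k
      obtain ⟨x, hx⟩ := exists_point_win (-k) (l ++ u ++ r)
      have e : (l ++ u ++ r).length = k + u.length + k := by simp [hl, hr, add_assoc]
      rw [e] at hx
      refine ⟨x, by simp only [Set.mem_preimage, Set.mem_ofPred_eq]; rw [hx]; exact h2, ?_⟩
      rw [ofFn_win_add, ofFn_win_add] at hx
      have h3 := (List.append_inj hx (by simp [hl])).1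
      have h4 := (List.append_inj h3 (by simp [hl])).2
      simpa using h4)
    (hcl 0).isCompact hcl
  rw [Set.mem_iInter] at hx
  refine ⟨x, mem_XRF.2 fun a n => ?_, (hx 0).2⟩
  exact Legal.sub (hx (a.natAbs + n)).1 (infix_win _ _ _ _ x (by omega) (by omega))

open Classical in
/-- The language of the subshift. -/
noncomputable def LN (N : ℕ) : Finset (Fin N → Bool) :=
  Finset.univ.filter fun w => ∃ x ∈ XRF, win 0 N x = w

theorem mem_LN {N : ℕ} {w : Fin N → Bool} : w ∈ LN N ↔ ∃ x ∈ XRF, win 0 N x = w := by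
  simp [LN]

theorem win_mem_LN {x : ℤ → Bool} (hx : x ∈ XRF) (a : ℤ) (N : ℕ) : win a N x ∈ LN N :=
  mem_LN.2 ⟨_, translate_mem hx a, by funext j; simp only [win]; congr 1; ring⟩

theorem legal_of_LN {N : ℕ} {w : Fin N → Bool} (h : w ∈ LN N) : Legal (List.ofFn w) := by
  obtain ⟨x, hx, rfl⟩ := mem_LN.1 h
  exact hx _ _

theorem XRF_nonempty : XRF.Nonempty := by
  obtain ⟨x, hx, -⟩ := (legal_of_mem (n := 0) (v := [false]) (by simp [A])).exists_point
  exact ⟨x, hx⟩

theorem LN_nonempty (N : ℕ) : (LN N).Nonempty := by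
  obtain ⟨x, hx⟩ := XRF_nonempty
  exact ⟨_, win_mem_LN hx 0 N⟩

theorem card_A_le_LN (m : ℕ) : (A m).card ≤ (LN (fl m)).card := by
  classical
  refine le_trans (Finset.card_le_card ?_) (Finset.card_image_le (f := List.ofFn))
  intro v hv
  obtain ⟨x, hx, h⟩ := (legal_of_mem hv).exists_point
  rw [length_A _ hv] at h
  exact Finset.mem_image.2 ⟨_, win_mem_LN hx 0 _, h⟩

theorem card_LN_add (N M : ℕ) : (LN (N + M)).card ≤ (LN N).card * (LN M).card := by
  rw [← Finset.card_product]
  refine Finset.card_le_card_of_injOn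
    (fun w => (fun j => w (Fin.castAdd M j), fun j => w (Fin.natAdd N j))) ?_ ?_
  · intro w hw
    obtain ⟨x, hx, rfl⟩ := mem_LN.1 (Finset.mem_coe.1 hw)
    simp only [Finset.coe_product, Set.mem_prod, Finset.mem_coe]
    refine ⟨win_mem_LN hx 0 N, ?_⟩
    have : (fun j => win 0 (N + M) x (Fin.natAdd N j)) = win N M x := by
      funext j; simp [win]
    rw [this]; exact win_mem_LN hx _ _
  · intro w _ w' _ e
    obtain ⟨e1, e2⟩ := Prod.mk.inj e
    funext j
    refine Fin.addCases (fun j => congrFun e1 j) (fun j => congrFun e2 j) j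

/-- Logarithm of the complexity function. -/
noncomputable def ell (N : ℕ) : ℝ := Real.log (LN N).card

theorem LN_pos (N : ℕ) : (0 : ℝ) < (LN N).card := by exact_mod_cast (LN_nonempty N).card_pos

theorem ell_nonneg (N : ℕ) : 0 ≤ ell N :=
  Real.log_nonneg (by exact_mod_cast (LN_nonempty N).card_pos)

theorem subadditive_ell : Subadditive ell := by
  intro N M
  unfold ell
  rw [← Real.log_mul (LN_pos _).ne' (LN_pos _).ne']
  exact Real.log_le_log (LN_pos _) (by exact_mod_cast card_LN_add N M)

/-- The growth rate of the language. -/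
noncomputable def htop : ℝ := subadditive_ell.lim

theorem bdd_ell : BddBelow (Set.range fun n : ℕ => ell n / n) :=
  ⟨0, by rintro _ ⟨n, rfl⟩; exact div_nonneg (ell_nonneg n) (Nat.cast_nonneg n)⟩

theorem tendsto_ell : Tendsto (fun n : ℕ => ell n / n) atTop (𝓝 htop) :=
  subadditive_ell.tendsto_lim bdd_ell

theorem htop_le {n : ℕ} : htop * n ≤ ell n := by
  rcases Nat.eq_zero_or_pos n with rfl | hn
  · simpa using ell_nonneg 0
  · exact (le_div_iff₀ (by exact_mod_cast hn)).1 (subadditive_ell.lim_le_div bdd_ell hn.ne')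

theorem htop_nonneg : 0 ≤ htop :=
  ge_of_tendsto' tendsto_ell fun n => div_nonneg (ell_nonneg n) (Nat.cast_nonneg n)

theorem ell_le (η : ℝ) (hη : 0 < η) : ∀ᶠ n : ℕ in atTop, ell n ≤ (htop + η) * n := by
  filter_upwards [tendsto_ell.eventually (gt_mem_nhds (lt_add_of_pos_right htop hη)),
    eventually_gt_atTop 0] with n h1 h2
  exact ((div_lt_iff₀ (by exact_mod_cast h2)).1 h1).le

theorem ell_le_shift (η : ℝ) (hη : 0 < η) (r : ℕ) :
    ∀ᶠ n : ℕ in atTop, ell (n + r) ≤ (htop + η) * n := by
  have h2 : ∀ᶠ n : ℕ in atTop, ell r ≤ η / 2 * n :=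
    (tendsto_natCast_atTop_atTop.const_mul_atTop (half_pos hη)).eventually_ge_atTop _
  filter_upwards [ell_le (η / 2) (half_pos hη), h2] with n h1 h2
  linarith [subadditive_ell n r]

theorem growth_A (n : ℕ) : Real.log (cA (n + 1)) ≤ htop * fl (n + 1) + 3 := by
  refine growth htop (fun η hη => ?_) n
  have := (tendsto_atTop_mono le_fl tendsto_id).eventually (ell_le η hη)
  filter_upwards [this] with m hm
  refine le_trans (Real.log_le_log (cA_pos m) ?_) hm
  unfold cA
  exact_mod_cast card_A_le_LN m

/-! ### Topological entropy -/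

open Dynamics in
theorem coverEntropy_eq : coverEntropy shift XRF = (htop : EReal) := by
  classical
  apply le_antisymm
  · refine iSup₂_le fun U hU => ?_
    rw [Pi.uniformity, Filter.mem_iInf_finite] at hU
    obtain ⟨T, hT⟩ := hU
    set r := T.sup fun i => i.natAbs with hr
    have hsub : ∀ x y : ℤ → Bool, (∀ i : ℤ, i.natAbs ≤ r → x i = y i) → (x, y) ∈ U := by
      have : 𝓟 {p : (ℤ → Bool) × (ℤ → Bool) | ∀ i : ℤ, i.natAbs ≤ r → p.1 i = p.2 i} ≤
          ⨅ i ∈ T, Filter.comap (fun a : (ℤ → Bool) × (ℤ → Bool) => (a.1 i, a.2 i))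
            (uniformity Bool) := by
        refine le_iInf₂ fun i hi => ?_
        rw [← Filter.map_le_iff_le_comap, Filter.map_principal]
        refine le_trans (Filter.principal_mono.2 ?_) refl_le_uniformity
        rintro _ ⟨p, hp, rfl⟩
        exact hp i (Finset.le_sup (f := fun i : ℤ => i.natAbs) hi)
      intro x y h
      exact (Filter.mem_principal.1 (this hT)) (show (x, y) ∈ {p : (ℤ → Bool) × (ℤ → Bool) |
        ∀ i : ℤ, i.natAbs ≤ r → p.1 i = p.2 i} from h)
    have hcard : ∀ n, coverMincard shift XRF U n ≤ ((LN (n + (2 * r + 1))).card : ℕ∞) := by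
      intro n
      have hex : ∀ w : Fin (n + (2 * r + 1)) → Bool, ∃ x, win (-r) _ x = w := by
        intro w
        obtain ⟨x, hx⟩ := exists_point_win (-r) (List.ofFn w)
        rw [List.length_ofFn] at hx
        exact ⟨x, List.ofFn_injective hx⟩
      choose g hg using hex
      refine le_trans (IsDynCoverOf.coverMincard_le_card
        (s := (LN (n + (2 * r + 1))).image g) ?_) (by exact_mod_cast Finset.card_image_le)
      intro x hx
      refine ⟨g (win (-r) _ x), Finset.mem_coe.2
        (Finset.mem_image_of_mem g (win_mem_LN hx _ _)), ?_⟩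
      refine mem_dynEntourage.2 fun k hk => hsub _ _ fun i hi => ?_
      rw [shift_iterate, shift_iterate]
      have := congrFun (hg (win (-r) (n + (2 * r + 1)) x)) ⟨(i + k + r).toNat, by omega⟩
      simp only [win] at this
      have e : -(r : ℤ) + ((i + k + r).toNat : ℕ) = i + k := by omega
      rw [e] at this
      exact this.symm
    refine EReal.le_of_forall_lt_iff_le.1 fun b hb => ?_
    have hb' : htop < b := by exact_mod_cast hb
    refine Eventually.expGrowthSup_le ?_
    filter_upwards [ell_le_shift (b - htop) (by linarith) (2 * r + 1)] with n hn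
    refine (ENat.toENNReal_mono (hcard n)).trans ?_
    have e : ((b : EReal) * (n : ℕ)) = ((b * n : ℝ) : EReal) := by push_cast; rfl
    rw [e, EReal.exp_coe]
    simp only [ENat.toENNReal_coe]
    rw [← ENNReal.ofReal_natCast]
    refine ENNReal.ofReal_le_ofReal ?_
    rw [← Real.exp_log (LN_pos _)]
    exact Real.exp_le_exp.2 (by unfold ell at hn; linarith)
  · set U : SetRel (ℤ → Bool) (ℤ → Bool) := {p | p.1 0 = p.2 0} with hUdef
    have hU : U ∈ uniformity (ℤ → Bool) := by
      rw [Pi.uniformity]
      refine Filter.mem_iInf_of_mem 0 (Filter.mem_comap.2 ⟨SetRel.id, ?_, fun p hp => hp⟩)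
      exact DiscreteUniformity.relId_mem_uniformity Bool
    refine le_trans ?_ (coverEntropyEntourage_le_coverEntropy shift XRF hU)
    have hcard : ∀ n, ((LN n).card : ℕ∞) ≤ coverMincard shift XRF U n := by
      intro n
      refine le_iInf₂ fun s hs => ?_
      have : LN n ⊆ s.image (win 0 n) := by
        intro w hw
        obtain ⟨x, hx, rfl⟩ := mem_LN.1 hw
        obtain ⟨y, hy, h⟩ := hs hx
        refine Finset.mem_image.2 ⟨y, hy, ?_⟩
        funext j
        have := mem_dynEntourage.1 h j j.2
        simp only [hUdef, Set.mem_ofPred_eq, shift_iterate] at this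
        exact this.symm
      exact_mod_cast (Finset.card_le_card this).trans Finset.card_image_le
    refine Frequently.le_expGrowthSup (Frequently.of_forall fun n => ?_)
    refine le_trans ?_ (ENat.toENNReal_mono (hcard n))
    have e : ((htop : EReal) * (n : ℕ)) = ((htop * n : ℝ) : EReal) := by push_cast; rfl
    rw [e, EReal.exp_coe]
    simp only [ENat.toENNReal_coe]
    rw [← ENNReal.ofReal_natCast]
    refine ENNReal.ofReal_le_ofReal ?_
    rw [← Real.exp_log (LN_pos _)]
    exact Real.exp_le_exp.2 htop_le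

end Pool.Agent.Lib.MP_ef06cf_an
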