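import Mathlib
import Pool.Agent.Lib.MP_ef06cf_an.Shift

set_option autoImplicit false

open Finset Filter Topology MeasureTheory
open scoped symmDiff

namespace Pool.Agent.Lib.MP_ef06cf_an

/-- Block entropy. -/
noncomputable def HN (μ : Measure (ℤ → Bool)) (n : ℕ) : ℝ := Hent μ (win 0 n)

variable {μ : Measure (ℤ → Bool)}

theorem real_win_add (hμ : MeasurePreserving shift μ μ) (a : ℤ) (n k : ℕ)
    (s : Set (Fin n → Bool)) : μ.real (win (a + k) n ⁻¹' s) = μ.real (win a n ⁻¹' s) := by
  rw [← (hμ.iterate k).measureReal_preimage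
    (isClopen_win a n s).isOpen.measurableSet.nullMeasurableSet]
  congr 1
  ext x
  simp [win_iterate]

theorem real_win (hμ : MeasurePreserving shift μ μ) (a : ℤ) (n : ℕ)
    (s : Set (Fin n → Bool)) : μ.real (win a n ⁻¹' s) = μ.real (win 0 n ⁻¹' s) := by
  rcases le_total 0 a with h | h
  · have := real_win_add hμ 0 n a.toNat s
    rwa [show (0 : ℤ) + (a.toNat : ℕ) = a by omega] at this
  · have := real_win_add hμ a n (-a).toNat s
    rw [show a + ((-a).toNat : ℕ) = 0 by omega] at this
    exact this.symm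

theorem Hent_win (hμ : MeasurePreserving shift μ μ) (a : ℤ) (n : ℕ) :
    Hent μ (win a n) = HN μ n := by
  unfold HN Hent
  exact Finset.sum_congr rfl fun w _ => by rw [real_win hμ]

theorem Hent_win_add (ν : Measure (ℤ → Bool)) [IsProbabilityMeasure ν] (a : ℤ) (n m : ℕ) :
    Hent ν (win a (n + m)) ≤ Hent ν (win a n) + Hent ν (win (a + n) m) := by
  refine Hent_le_add ν (mf_win a n) (mf_win (a + n) m)
    (fun u v => (Fin.append u v : Fin (n + m) → Bool)) fun x => ?_
  funext j
  refine Fin.addCases (fun j => ?_) (fun j => ?_) j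
  · simp [win]
  · simp [win, add_assoc]

theorem HN_add [IsProbabilityMeasure μ] (hμ : MeasurePreserving shift μ μ) (n m : ℕ) :
    HN μ (n + m) ≤ HN μ n + HN μ m := by
  have := Hent_win_add μ 0 n m
  rwa [Hent_win hμ (0 + n)] at this

theorem joinEntropy_eq (μ : Measure (ℤ → Bool)) {k : ℕ} (P : (ℤ → Bool) → Fin k) (n : ℕ) :
    joinEntropy μ P n = Hent μ (fun x (j : Fin n) => P (shift^[j] x)) := by
  unfold joinEntropy Hent
  refine Finset.sum_congr rfl fun w _ => ?_
  congr 2
  ext x
  simp [funext_iff]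

/-- Sets depending only on the coordinates of absolute value at most r. -/
def Loc (r : ℕ) (C : Set (ℤ → Bool)) : Prop :=
  ∀ x y : ℤ → Bool, (∀ i : ℤ, i.natAbs ≤ r → x i = y i) → x ∈ C → y ∈ C

theorem Loc.mono {r s : ℕ} {C : Set (ℤ → Bool)} (h : Loc r C) (hrs : r ≤ s) : Loc s C :=
  fun x y e => h x y fun i hi => e i (hi.trans hrs)

theorem loc_of_cylinder {C : Set (ℤ → Bool)} (h : C ∈ measurableCylinders fun _ : ℤ => Bool) :
    ∃ r, Loc r C := by
  obtain ⟨s, S, -, rfl⟩ := (mem_measurableCylinders _).1 h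
  refine ⟨s.sup fun i => i.natAbs, fun x y e hx => ?_⟩
  rw [mem_cylinder] at hx ⊢
  have : s.restrict y = s.restrict x := by
    funext i
    exact (e i (Finset.le_sup (f := fun i : ℤ => i.natAbs) i.2)).symm
  rwa [this]

theorem eq_of_win {r m : ℕ} (hm : 2 * r + 1 ≤ m) {x y : ℤ → Bool}
    (h : win (-r) m x = win (-r) m y) (i : ℤ) (hi : i.natAbs ≤ r) : x i = y i := by
  have := congrFun h ⟨(i + r).toNat, by omega⟩
  simp only [win] at this
  rwa [show -(r : ℤ) + ((i + r).toNat : ℕ) = i by omega] at this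

theorem Loc.eq_preimage {r : ℕ} {C : Set (ℤ → Bool)} (h : Loc r C) :
    C = win (-r) (2 * r + 1) ⁻¹' (win (-r) (2 * r + 1) '' C) := by
  ext x
  refine ⟨fun hx => ⟨x, hx, rfl⟩, ?_⟩
  rintro ⟨y, hy, e⟩
  exact h y x (eq_of_win le_rfl e) hy

theorem ext_win {μ ν : Measure (ℤ → Bool)} [IsProbabilityMeasure μ] [IsProbabilityMeasure ν]
    (h : ∀ (a : ℤ) (n : ℕ) (w : Fin n → Bool),
      μ.real (win a n ⁻¹' {w}) = ν.real (win a n ⁻¹' {w})) : μ = ν := by
  classical
  refine ext_of_generate_finite _ generateFrom_measurableCylinders.symm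
    isPiSystem_measurableCylinders (fun C hC => ?_) (by simp)
  obtain ⟨r, hr⟩ := loc_of_cylinder hC
  rw [← ENNReal.toReal_eq_toReal_iff' (measure_ne_top _ _) (measure_ne_top _ _)]
  change μ.real C = ν.real C
  rw [hr.eq_preimage, ← Set.coe_toFinset (win (-r) (2 * r + 1) '' C),
    real_preimage_eq_sum μ (mf_win _ _), real_preimage_eq_sum ν (mf_win _ _)]
  exact Finset.sum_congr rfl fun w _ => h _ _ _

theorem small_entropy (k : ℕ) (η : ℝ) (hη : 0 < η) : ∃ δ > 0, ∀ (ν : Measure (ℤ → Bool))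
    [IsProbabilityMeasure ν] (E : (ℤ → Bool) → Option (Fin k)), Mf E →
    ν.real (E ⁻¹' {none})ᶜ ≤ δ → Hent ν E ≤ η := by
  have h0 : ∀ᶠ p in 𝓝 (0 : ℝ), Real.negMulLog p < η / (k + 1) := by
    have := Real.continuous_negMulLog.tendsto 0
    rw [Real.negMulLog_zero] at this
    exact this.eventually (gt_mem_nhds (by positivity))
  have h1 : ∀ᶠ p in 𝓝 (1 : ℝ), Real.negMulLog p < η / (k + 1) := by
    have := Real.continuous_negMulLog.tendsto 1
    rw [Real.negMulLog_one] at this
    exact this.eventually (gt_mem_nhds (by positivity))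
  obtain ⟨δ0, p0, q0⟩ := Metric.eventually_nhds_iff.1 h0
  obtain ⟨δ1, p1, q1⟩ := Metric.eventually_nhds_iff.1 h1
  refine ⟨min δ0 δ1 / 2, by positivity, fun ν _ E hE hν => ?_⟩
  have m0 := min_le_left δ0 δ1
  have m1 := min_le_right δ0 δ1
  have mp : 0 < min δ0 δ1 := lt_min p0 p1
  have key : ∀ a, Real.negMulLog (ν.real (E ⁻¹' {a})) ≤ η / (k + 1) := by
    intro a
    cases a with
    | none =>
      refine (q1 ?_).le
      rw [probReal_compl_eq_one_sub (hE none)] at hν
      have hle : ν.real (E ⁻¹' {none}) ≤ 1 := measureReal_le_one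
      rw [Real.dist_eq, abs_sub_comm, abs_of_nonneg (by linarith)]
      linarith
    | some j =>
      refine (q0 ?_).le
      have : ν.real (E ⁻¹' {some j}) ≤ ν.real (E ⁻¹' {none})ᶜ :=
        measureReal_mono (fun x hx => by simp_all)
      rw [Real.dist_eq, sub_zero, abs_of_nonneg measureReal_nonneg]
      linarith
  refine (Finset.sum_le_card_nsmul _ _ _ fun a _ => key a).trans (le_of_eq ?_)
  simp only [Finset.card_univ, Fintype.card_option, Fintype.card_fin, nsmul_eq_mul]
  push_cast
  field_simp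

theorem approx [IsProbabilityMeasure μ] {k : ℕ} {P : (ℤ → Bool) → Fin k} (hP : Mf P) (δ : ℝ)
    (hδ : 0 < δ) : ∃ (r : ℕ) (q : (Fin (2 * r + 1) → Bool) → Fin k),
      μ.real {x | P x ≠ q (win (-r) (2 * r + 1) x)} ≤ δ := by
  classical
  have hex : ∀ j, ∃ C ∈ measurableCylinders (fun _ : ℤ => Bool),
      μ (C ∆ (P ⁻¹' {j})) < ENNReal.ofReal (δ / (k + 1)) := fun j =>
    exists_measure_symmDiff_lt_of_generateFrom_isSetRing isSetRing_measurableCylinders
      ⟨{Set.univ}, Set.countable_singleton _, by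
        simpa using univ_mem_measurableCylinders (fun _ : ℤ => Bool), by simp⟩
      generateFrom_measurableCylinders.symm (hP j) (ENNReal.ofReal_pos.2 (by positivity))
  choose C hC1 hC2 using hex
  choose r hr using fun j => loc_of_cylinder (hC1 j)
  set R := Finset.univ.sup r with hR
  have hloc : ∀ j, Loc R (C j) := fun j => (hr j).mono (Finset.le_sup (Finset.mem_univ j))
  refine ⟨R, fun w => if h : ∃ j, w ∈ win (-R) (2 * R + 1) '' C j then h.choose
    else P fun _ => false, ?_⟩
  have hsub : {x | P x ≠ (fun w => if h : ∃ j, w ∈ win (-R) (2 * R + 1) '' C j then h.choose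
      else P fun _ => false) (win (-R) (2 * R + 1) x)} ⊆ ⋃ j, C j ∆ (P ⁻¹' {j}) := by
    intro x hx
    by_contra hn
    simp only [Set.mem_iUnion, not_exists, Set.mem_symmDiff, Set.mem_preimage,
      Set.mem_singleton_iff, not_or, not_and, not_not] at hn
    have h1 : ∃ j, win (-R) (2 * R + 1) x ∈ win (-R) (2 * R + 1) '' C j :=
      ⟨P x, x, (hn (P x)).2 rfl, rfl⟩
    apply hx
    simp only [dif_pos h1]
    refine (hn _).1 ?_
    rw [(hloc _).eq_preimage]
    exact h1.choose_spec
  refine (measureReal_mono hsub).trans ((measureReal_iUnion_fintype_le _).trans ?_)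
  refine (Finset.sum_le_card_nsmul _ _ (δ / (k + 1)) fun j _ => ?_).trans ?_
  · exact ENNReal.toReal_le_of_le_ofReal (by positivity) (hC2 j).le
  · simp only [Finset.card_univ, Fintype.card_fin, nsmul_eq_mul]
    rw [mul_div_assoc', div_le_iff₀ (by positivity)]
    nlinarith

theorem generator [IsProbabilityMeasure μ] (hμ : MeasurePreserving shift μ μ) {k : ℕ}
    {P : (ℤ → Bool) → Fin k} (hP : Measurable P) (η : ℝ) (hη : 0 < η) :
    ∃ c : ℝ, ∀ n, joinEntropy μ P n ≤ HN μ n + c + η * n := by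
  classical
  have hP' : Mf P := fun j => hP (measurableSet_singleton j)
  obtain ⟨δ, hδ, h1⟩ := small_entropy k η hη
  obtain ⟨r, q, h2⟩ := approx (μ := μ) hP' δ hδ
  set E : (ℤ → Bool) → Option (Fin k) := fun x =>
    if P x = q (win (-r) (2 * r + 1) x) then none else some (P x) with hE
  have hEm : Mf E := (hP'.pair (mf_win (-r) (2 * r + 1))).comp
    fun c => if c.1 = q c.2 then none else some c.1
  have h3 : Hent μ E ≤ η := by
    refine h1 μ E hEm (le_trans (le_of_eq ?_) h2)
    congr 1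
    ext x
    simp [hE]
  refine ⟨HN μ (2 * r + 1), fun n => ?_⟩
  rw [joinEntropy_eq]
  have hEj : ∀ j : Fin n, Mf fun x => E (shift^[j] x) := fun j =>
    hEm.comp_meas (measurable_shift.iterate j)
  have h4 := Hent_le_add μ (mf_win (-r) (n + (2 * r + 1))) (Mf.pi hEj)
    (h := fun x (j : Fin n) => P (shift^[j] x))
    (fun u e j => (e j).getD (q fun i => u ⟨j + i, by omega⟩)) (by
      intro x
      funext j
      have : (fun i : Fin (2 * r + 1) => win (-r) (n + (2 * r + 1)) x ⟨j + i, by omega⟩) =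
          win (-r) (2 * r + 1) (shift^[j] x) := by
        funext i
        simp only [win, shift_iterate]
        congr 1; push_cast; ring
      rw [this]
      simp only [hE]
      split_ifs with h
      · simpa using h
      · simp)
  have h5 := Hent_pi_le μ n (fun j x => E (shift^[j] x)) hEj
  have h6 : ∑ j : Fin n, Hent μ (fun x => E (shift^[j] x)) ≤ η * n := by
    refine (Finset.sum_le_card_nsmul _ _ η fun j _ => ?_).trans (by simp [mul_comm])
    rw [Hent_comp_mp (hμ.iterate j) hEm]; exact h3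
  rw [Hent_win hμ] at h4
  linarith [HN_add hμ n (2 * r + 1)]

theorem ks_le [IsProbabilityMeasure μ] (hμ : MeasurePreserving shift μ μ) (c : ℝ)
    (h : ∀ η > 0, ∀ᶠ n : ℕ in atTop, HN μ n ≤ (c + η) * n) : ksEntropy μ ≤ c := by
  refine iSup_le fun k => iSup₂_le fun P hP => ?_
  refine EReal.le_of_forall_lt_iff_le.1 fun b hb => ?_
  have hb' : c < b := by exact_mod_cast hb
  set η := (b - c) / 3
  have hη : 0 < η := by simp only [η]; linarith
  obtain ⟨d, hd⟩ := generator hμ hP η hη
  have h2 : ∀ᶠ n : ℕ in atTop, d ≤ η * n :=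
    (tendsto_natCast_atTop_atTop.const_mul_atTop hη).eventually_ge_atTop _
  refine limsup_le_of_le (h := ?_)
  filter_upwards [h η hη, h2, eventually_gt_atTop 0] with n a1 a2 a3
  have a4 : (0 : ℝ) < n := by exact_mod_cast a3
  have : joinEntropy μ P n / n ≤ b := by
    rw [div_le_iff₀ a4]
    have e : b = c + 3 * η := by simp only [η]; ring
    rw [e]
    linarith [hd n]
  exact_mod_cast this

theorem le_ks [IsProbabilityMeasure μ] (c : ℝ) (h : ∀ n : ℕ, c * n ≤ HN μ n) :
    (c : EReal) ≤ ksEntropy μ := by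
  set P : (ℤ → Bool) → Fin 2 := fun x => if x 0 then 1 else 0 with hPdef
  have hP : Measurable P :=
    (measurable_of_countable fun b : Bool => (if b then 1 else 0 : Fin 2)).comp
      (measurable_pi_apply 0)
  have hP' : Mf P := fun j => hP (measurableSet_singleton j)
  refine le_trans ?_ (le_iSup_of_le 2 (le_iSup₂_of_le P hP le_rfl))
  refine le_limsup_of_frequently_le ?_
  refine Eventually.frequently ?_
  filter_upwards [eventually_gt_atTop 0] with n a3
  have a4 : (0 : ℝ) < n := by exact_mod_cast a3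
  have h1 : HN μ n ≤ joinEntropy μ P n := by
    rw [joinEntropy_eq]
    refine Hent_le_of_factor μ (Mf.pi fun j : Fin n => hP'.comp_meas (measurable_shift.iterate j))
      (fun u j => decide (u j = 1)) fun x => ?_
    funext j
    simp only [win, hPdef, shift_iterate]
    cases x (0 + (j : ℕ)) <;> simp
  have : c ≤ joinEntropy μ P n / n := by
    rw [le_div_iff₀ a4]; linarith [h n]
  exact_mod_cast this

theorem mem_LN_of_pos [IsProbabilityMeasure μ] (hX : μ XRF = 1) {a : ℤ} {n : ℕ}
    {w : Fin n → Bool} (h : μ.real (win a n ⁻¹' {w}) ≠ 0) : w ∈ LN n := by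
  by_contra hw
  apply h
  have h0 : μ XRFᶜ = 0 := (prob_compl_eq_zero_iff isClosed_XRF.measurableSet).2 hX
  have hs : win a n ⁻¹' {w} ⊆ XRFᶜ := fun x hx hx' => hw (by
    rw [← Set.mem_singleton_iff.1 hx]; exact win_mem_LN hx' a n)
  have : μ (win a n ⁻¹' {w}) = 0 := measure_mono_null hs h0
  simp [Measure.real, this]

theorem HN_le_ell [IsProbabilityMeasure μ] (hX : μ XRF = 1) (n : ℕ) : HN μ n ≤ ell n :=
  Hent_le_log_card μ (mf_win 0 n) (LN n) fun _ h => mem_LN_of_pos hX h

theorem ks_le_htop [IsProbabilityMeasure μ] (hμ : MeasurePreserving shift μ μ)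
    (hX : μ XRF = 1) : ksEntropy μ ≤ htop :=
  ks_le hμ _ fun η hη => (ell_le η hη).mono fun n hn => (HN_le_ell hX n).trans hn

theorem frequently_HN [IsProbabilityMeasure μ] (hμ : MeasurePreserving shift μ μ)
    (h : (htop : EReal) ≤ ksEntropy μ) (η : ℝ) (hη : 0 < η) :
    ∃ᶠ n : ℕ in atTop, (htop - η) * n ≤ HN μ n := by
  by_contra hn
  rw [not_frequently] at hn
  have := h.trans (ks_le hμ (htop - η) fun θ hθ => hn.mono fun n h1 => by
    have : (0 : ℝ) ≤ n := Nat.cast_nonneg n
    push Not at h1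
    nlinarith)
  have h2 : htop ≤ htop - η := by exact_mod_cast this
  linarith

end Pool.Agent.Lib.MP_ef06cf_an
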