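import Mathlib
import Pool.Agent.Lib.MP_ef06cf_an.KS

set_option autoImplicit false

open Finset Filter Topology MeasureTheory

namespace Pool.Agent.Lib.MP_ef06cf_an

theorem Hent_win_le (σ : Measure (ℤ → Bool)) [IsProbabilityMeasure σ] (a : ℤ) (m : ℕ) :
    Hent σ (win a m) ≤ m := by
  refine (Hent_le_log_card σ (mf_win a m) Finset.univ fun _ _ => Finset.mem_univ _).trans ?_
  simp only [Finset.card_univ, Fintype.card_pi, Fintype.card_bool, Finset.prod_const,
    Fintype.card_fin, Nat.cast_pow, Real.log_pow, Nat.cast_ofNat]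
  have := Real.log_two_lt_d9
  have h : (0 : ℝ) ≤ m := Nat.cast_nonneg m
  nlinarith

theorem Hent_win_mono (σ : Measure (ℤ → Bool)) [IsProbabilityMeasure σ] {N M : ℕ} (h : N ≤ M) :
    Hent σ (win 0 N) ≤ Hent σ (win 0 M) :=
  Hent_le_of_factor σ (mf_win 0 M) (fun u j => u (Fin.castLE h j)) fun _ => rfl

theorem block_sum (σ : Measure (ℤ → Bool)) [IsProbabilityMeasure σ] (q I : ℕ) :
    ∑ j ∈ Finset.range q, Hent σ (win 0 (q * I + j)) ≤
      (q : ℝ) ^ 2 + ∑ s ∈ Finset.range (q * I), Hent σ (win s q) := by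
  induction I with
  | zero =>
    simp only [mul_zero, Finset.range_zero, Finset.sum_empty, add_zero]
    refine (Finset.sum_le_card_nsmul _ _ (q : ℝ) fun j hj => (Hent_win_le σ 0 _).trans ?_).trans ?_
    · have := Finset.mem_range.1 hj
      exact_mod_cast (by omega : 0 + j ≤ q)
    · simp [sq]
  | succ I ih =>
    rw [Nat.mul_succ, Finset.sum_range_add]
    have : ∑ j ∈ Finset.range q, Hent σ (win 0 (q * I + q + j)) ≤
        ∑ j ∈ Finset.range q, (Hent σ (win 0 (q * I + j)) + Hent σ (win (q * I + j : ℕ) q)) := by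
      refine Finset.sum_le_sum fun j _ => ?_
      have := Hent_win_add σ 0 (q * I + j) q
      rw [zero_add] at this
      rwa [show q * I + q + j = q * I + j + q by ring]
    rw [Finset.sum_add_distrib] at this
    linarith

theorem block_ineq (σ : Measure (ℤ → Bool)) [IsProbabilityMeasure σ] (q N : ℕ) (hq : 0 < q) :
    q * Hent σ (win 0 N) ≤ 2 * (q : ℝ) ^ 2 + ∑ s ∈ Finset.range N, Hent σ (win s q) := by
  have h1 := block_sum σ q (N / q + 1)
  have h2 := Nat.div_add_mod N q
  have h3 := Nat.mod_lt N hq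
  obtain ⟨d, hd, hd2⟩ : ∃ d, q * (N / q + 1) = N + d ∧ d ≤ q :=
    ⟨q - N % q, by rw [Nat.mul_succ]; omega, by omega⟩
  rw [hd, Finset.sum_range_add] at h1
  have h4 : ∑ s ∈ Finset.range d, Hent σ (win (N + s : ℕ) q) ≤ (q : ℝ) ^ 2 := by
    refine (Finset.sum_le_card_nsmul _ _ (q : ℝ) fun j _ => Hent_win_le σ _ q).trans ?_
    rw [Finset.card_range, nsmul_eq_mul, sq]
    exact mul_le_mul_of_nonneg_right (by exact_mod_cast hd2) (Nat.cast_nonneg _)
  have h5 : q * Hent σ (win 0 N) ≤ ∑ j ∈ Finset.range q, Hent σ (win 0 (N + d + j)) := by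
    have := Finset.card_nsmul_le_sum (Finset.range q) (fun j => Hent σ (win 0 (N + d + j)))
      (Hent σ (win 0 N)) fun j _ => Hent_win_mono σ (by omega)
    rwa [Finset.card_range, nsmul_eq_mul] at this
  linarith

theorem exists_sigma (N : ℕ) : ∃ σ : Measure (ℤ → Bool), IsProbabilityMeasure σ ∧
    σ XRFᶜ = 0 ∧ ell N ≤ Hent σ (win 0 N) := by
  classical
  have hex : ∀ w : Fin N → Bool, ∃ x, w ∈ LN N → x ∈ XRF ∧ win 0 N x = w := by
    intro w
    by_cases h : w ∈ LN N
    · obtain ⟨x, h1, h2⟩ := mem_LN.1 h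
      exact ⟨x, fun _ => ⟨h1, h2⟩⟩
    · exact ⟨fun _ => false, fun h' => absurd h' h⟩
  choose pt hpt using hex
  have hc0 : ((LN N).card : ENNReal) ≠ 0 := by exact_mod_cast (LN_nonempty N).card_pos.ne'
  set σ : Measure (ℤ → Bool) :=
    ((LN N).card : ENNReal)⁻¹ • ∑ w ∈ LN N, Measure.dirac (pt w) with hσ
  have happ : ∀ C, MeasurableSet C →
      σ C = ((LN N).card : ENNReal)⁻¹ * ∑ w ∈ LN N, C.indicator 1 (pt w) := by
    intro C hC
    rw [hσ, Measure.smul_apply, Measure.finsetSum_apply, smul_eq_mul]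
    congr 1
    exact Finset.sum_congr rfl fun w _ => Measure.dirac_apply' _ hC
  have hprob : IsProbabilityMeasure σ := ⟨by
    rw [happ _ MeasurableSet.univ]
    simp only [Set.indicator_univ, Pi.one_apply, Finset.sum_const, nsmul_eq_mul, mul_one]
    exact ENNReal.inv_mul_cancel hc0 (by simp)⟩
  refine ⟨σ, hprob, ?_, ?_⟩
  · rw [happ _ isClosed_XRF.measurableSet.compl, Finset.sum_eq_zero, mul_zero]
    intro w hw
    exact Set.indicator_of_notMem (show pt w ∉ XRFᶜ from fun h => h (hpt w hw).1) _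
  · have h1 : ∀ w ∈ LN N, σ.real (win 0 N ⁻¹' {w}) = ((LN N).card : ℝ)⁻¹ := by
      intro w hw
      rw [Measure.real, happ _ (mf_win 0 N w), Finset.sum_eq_single w]
      · rw [Set.indicator_of_mem (by simpa using (hpt w hw).2)]
        simp
      · intro v hv hne
        exact Set.indicator_of_notMem (by simpa [(hpt v hv).2] using hne) _
      · intro h; exact absurd hw h
    have h2 : ∑ w ∈ LN N, Real.negMulLog (σ.real (win 0 N ⁻¹' {w})) = ell N := by
      rw [Finset.sum_congr rfl fun w hw => by rw [h1 w hw], Finset.sum_const, nsmul_eq_mul,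
        Real.negMulLog, Real.log_inv, ell]
      have := LN_pos N
      field_simp
    rw [← h2]
    exact Finset.sum_le_sum_of_subset_of_nonneg (Finset.subset_univ _) fun _ _ _ =>
      Real.negMulLog_nonneg measureReal_nonneg measureReal_le_one

theorem exists_nu (N : ℕ) (hN : 0 < N) : ∃ ν : ProbabilityMeasure (ℤ → Bool),
    (ν : Measure (ℤ → Bool)) XRFᶜ = 0 ∧
    (∀ (a : ℤ) (n : ℕ) (s : Set (Fin n → Bool)),
      |(ν : Measure (ℤ → Bool)).real (win (a + 1) n ⁻¹' s) -
        (ν : Measure (ℤ → Bool)).real (win a n ⁻¹' s)| ≤ 1 / N) ∧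
    ∀ q : ℕ, 0 < q → htop * q ≤ HN ν q + 2 * (q : ℝ) ^ 2 / N := by
  obtain ⟨σ, hσ, h1, h2⟩ := exists_sigma N
  have hN' : (0 : ℝ) < N := by exact_mod_cast hN
  have hc0 : (N : ENNReal) ≠ 0 := by exact_mod_cast hN.ne'
  set ν : Measure (ℤ → Bool) := (N : ENNReal)⁻¹ • ∑ s ∈ Finset.range N, σ.map shift^[s] with hν
  have happ : ∀ C, MeasurableSet C →
      ν C = (N : ENNReal)⁻¹ * ∑ s ∈ Finset.range N, σ (shift^[s] ⁻¹' C) := by
    intro C hC
    rw [hν, Measure.smul_apply, Measure.finsetSum_apply, smul_eq_mul]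
    congr 1
    exact Finset.sum_congr rfl fun s _ => Measure.map_apply (measurable_shift.iterate s) hC
  have hprob : IsProbabilityMeasure ν := ⟨by
    rw [happ _ MeasurableSet.univ]
    simp only [Set.preimage_univ, measure_univ, Finset.sum_const, Finset.card_range,
      nsmul_eq_mul, mul_one]
    exact ENNReal.inv_mul_cancel hc0 (by simp)⟩
  have hreal : ∀ (a : ℤ) (n : ℕ) (s : Set (Fin n → Bool)), ν.real (win a n ⁻¹' s) =
      (∑ i ∈ Finset.range N, σ.real (win (a + i) n ⁻¹' s)) / N := by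
    intro a n s
    rw [Measure.real, happ _ (isClopen_win a n s).isOpen.measurableSet, ENNReal.toReal_mul,
      ENNReal.toReal_sum fun _ _ => measure_ne_top _ _, ENNReal.toReal_inv,
      ENNReal.toReal_natCast, div_eq_inv_mul]
    congr 1
    refine Finset.sum_congr rfl fun i _ => ?_
    rw [Measure.real]
    congr 2
    ext x
    simp [win_iterate]
  refine ⟨⟨ν, hprob⟩, ?_, fun a n s => ?_, fun q hq => ?_⟩
  · change ν XRFᶜ = 0
    rw [happ _ isClosed_XRF.measurableSet.compl, Finset.sum_eq_zero, mul_zero]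
    intro s _
    have hs : shift^[s] ⁻¹' XRFᶜ ⊆ XRFᶜ := fun x hx hx' => hx (iterate_mem hx' s)
    exact measure_mono_null hs h1
  · change |ν.real _ - ν.real _| ≤ _
    rw [hreal, hreal, ← sub_div, abs_div, abs_of_pos hN']
    refine div_le_div_of_nonneg_right ?_ hN'.le
    have e1 := Finset.sum_range_succ (fun i : ℕ => σ.real (win (a + i) n ⁻¹' s)) N
    have e2 := Finset.sum_range_succ' (fun i : ℕ => σ.real (win (a + i) n ⁻¹' s)) N
    have e3 : ∑ i ∈ Finset.range N, σ.real (win (a + 1 + i) n ⁻¹' s) =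
        ∑ i ∈ Finset.range N, σ.real (win (a + (i + 1 : ℕ)) n ⁻¹' s) :=
      Finset.sum_congr rfl fun i _ => by
        rw [show a + 1 + i = a + ((i + 1 : ℕ) : ℤ) by push_cast; ring]
    have b1 : σ.real (win (a + N) n ⁻¹' s) ≤ 1 := measureReal_le_one
    have b2 : σ.real (win (a + (0 : ℕ)) n ⁻¹' s) ≤ 1 := measureReal_le_one
    have b3 : 0 ≤ σ.real (win (a + N) n ⁻¹' s) := measureReal_nonneg
    have b4 : 0 ≤ σ.real (win (a + (0 : ℕ)) n ⁻¹' s) := measureReal_nonneg
    rw [e3, abs_le]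
    constructor <;> linarith
  · change _ ≤ HN ν q + _
    have b1 := block_ineq σ q N hq
    have b2 : ∑ s ∈ Finset.range N, Hent σ (win s q) ≤ N * HN ν q := by
      unfold HN Hent
      rw [Finset.sum_comm, Finset.mul_sum]
      refine Finset.sum_le_sum fun w _ => ?_
      rw [hreal]
      simp only [zero_add]
      exact avg_negMulLog_le N hN _ fun _ => measureReal_nonneg
    have b3 := htop_le (n := N)
    have b4 : (0 : ℝ) ≤ q := Nat.cast_nonneg q
    refine le_of_mul_le_mul_right ?_ hN'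
    rw [add_mul, div_mul_cancel₀ _ hN'.ne']
    nlinarith [mul_le_mul_of_nonneg_left (b3.trans h2) b4]

theorem exists_mme : ∃ μ : Measure (ℤ → Bool), IsProbabilityMeasure μ ∧ μ XRF = 1 ∧
    MeasurePreserving shift μ μ ∧ (htop : EReal) ≤ ksEntropy μ := by
  choose ν h1 h2 h3 using fun N : ℕ => exists_nu (N + 1) N.succ_pos
  set U : Ultrafilter ℕ := Ultrafilter.of atTop
  have hU : (U : Filter ℕ) ≤ atTop := Ultrafilter.of_le _
  obtain ⟨μ, -, hμ⟩ := isCompact_univ.ultrafilter_le_nhds (U.map ν) (by simp)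
  have hμ' : Tendsto ν U (𝓝 μ) := hμ
  have hlim : ∀ (a : ℤ) (n : ℕ) (s : Set (Fin n → Bool)),
      Tendsto (fun N => (ν N : Measure (ℤ → Bool)).real (win a n ⁻¹' s)) U
        (𝓝 ((μ : Measure (ℤ → Bool)).real (win a n ⁻¹' s))) := fun a n s =>
    NNReal.tendsto_coe.2
      (ProbabilityMeasure.tendsto_measure_of_isClopen_of_tendsto hμ' (isClopen_win a n s))
  have t0 : Tendsto (fun N : ℕ => 1 / ((N + 1 : ℕ) : ℝ)) U (𝓝 0) :=
    ((tendsto_const_nhds.div_atTop tendsto_natCast_atTop_atTop).comp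
      (tendsto_add_atTop_nat 1)).mono_left hU
  refine ⟨μ, inferInstance, ?_, ⟨measurable_shift, ?_⟩, le_ks _ fun q => ?_⟩
  · rw [← prob_compl_eq_zero_iff isClosed_XRF.measurableSet, XRF_eq]
    simp only [Set.compl_iInter]
    refine measure_iUnion_null fun a => measure_iUnion_null fun n => ?_
    rw [← Set.preimage_compl, ← measureReal_eq_zero_iff]
    refine tendsto_nhds_unique (hlim a n _) ?_
    refine tendsto_const_nhds.congr fun N => ?_
    symm
    rw [measureReal_eq_zero_iff]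
    have hs : win a n ⁻¹' {w | Legal (List.ofFn w)}ᶜ ⊆ XRFᶜ := fun x hx hx' => hx (hx' a n)
    exact measure_mono_null hs (h1 N)
  · have := Measure.isProbabilityMeasure_map (μ := (μ : Measure (ℤ → Bool)))
      measurable_shift.aemeasurable
    refine ext_win fun a n w => ?_
    rw [map_measureReal_apply measurable_shift (mf_win a n w)]
    have e : shift ⁻¹' (win a n ⁻¹' {w}) = win (a + 1) n ⁻¹' {w} := by
      ext x
      have := win_iterate a n 1 x
      simp only [Function.iterate_one, Nat.cast_one] at this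
      simp [this]
    rw [e, ← sub_eq_zero, ← abs_nonpos_iff]
    exact le_of_tendsto_of_tendsto' ((hlim _ _ _).sub (hlim _ _ _)).abs t0 fun N => h2 N a n _
  · rcases Nat.eq_zero_or_pos q with rfl | hq
    · rw [Nat.cast_zero, mul_zero]
      exact Hent_nonneg (μ : Measure (ℤ → Bool)) (win 0 0)
    have t1 : Tendsto (fun N => HN (ν N) q) U (𝓝 (HN μ q)) :=
      tendsto_finsetSum _ fun w _ => (Real.continuous_negMulLog.tendsto _).comp (hlim 0 q {w})
    have t2 := t1.add (t0.const_mul (2 * (q : ℝ) ^ 2))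
    rw [mul_zero, add_zero] at t2
    refine ge_of_tendsto' t2 fun N => ?_
    rw [mul_one_div]
    exact h3 N q hq

end Pool.Agent.Lib.MP_ef06cf_an
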