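import Mathlib
import Pool.Agent.Lib.MP_ef06cf_an.KS

set_option autoImplicit false

open Finset Filter Topology MeasureTheory

namespace Pool.Agent.Lib.MP_ef06cf_an

theorem prefix_win {w : List Bool} {a : ℤ} {M : ℕ} {x : ℤ → Bool} :
    w <+: List.ofFn (win a M x) ↔ w.length ≤ M ∧ List.ofFn (win a w.length x) = w := by
  constructor
  · intro h
    have h1 : w.length ≤ M := by simpa using h.length_le
    refine ⟨h1, ?_⟩
    obtain ⟨k, rfl⟩ := Nat.exists_eq_add_of_le h1
    rw [ofFn_win_add] at h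
    exact ((List.prefix_of_prefix_length_le h (List.prefix_append _ _) (by simp)).eq_of_length
      (by simp)).symm
  · rintro ⟨h1, h2⟩
    obtain ⟨k, rfl⟩ := Nat.exists_eq_add_of_le h1
    rw [ofFn_win_add, h2]
    exact List.prefix_append _ _

theorem ofFn_win_succ (a : ℤ) (N : ℕ) (x : ℤ → Bool) :
    List.ofFn (win a (N + 1) x) = x a :: List.ofFn (win (a + 1) N x) := by
  rw [List.ofFn_succ]
  congr 1
  · simp [win]
  · congr 1
    funext j
    simp only [win, Fin.val_succ]
    congr 1; push_cast; ring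

/-- Number of occurrences starting in a window. -/
def cnt (w : List Bool) (a : ℤ) (N : ℕ) (x : ℤ → Bool) : ℕ :=
  ∑ i ∈ Finset.range N, if List.ofFn (win (a + i) w.length x) = w then 1 else 0

theorem cnt_succ (w : List Bool) (a : ℤ) (N : ℕ) (x : ℤ → Bool) :
    cnt w a (N + 1) x =
      (if List.ofFn (win a w.length x) = w then 1 else 0) + cnt w (a + 1) N x := by
  unfold cnt
  rw [Finset.sum_range_succ', add_comm]
  congr 1
  · simp
  · refine Finset.sum_congr rfl fun i _ => ?_
    rw [show a + ((i + 1 : ℕ) : ℤ) = a + 1 + i by push_cast; ring]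

theorem occ_cnt (w : List Bool) (x : ℤ → Bool) (N : ℕ) : ∀ a : ℤ,
    occ w (List.ofFn (win a N x)) ≤ cnt w a N x ∧
      cnt w a N x ≤ occ w (List.ofFn (win a N x)) + min w.length N := by
  induction N with
  | zero => intro a; simp [cnt, occ]
  | succ N ih =>
    intro a
    have h := ih (a + 1)
    have hp := prefix_win (w := w) (a := a) (M := N + 1) (x := x)
    rw [cnt_succ]
    rw [ofFn_win_succ] at hp ⊢
    simp only [occ]
    split_ifs with h1 h2 h2
    · omega
    · exact absurd (hp.1 h1).2 h2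
    · have : ¬ w.length ≤ N + 1 := fun h3 => h1 (hp.2 ⟨h3, h2⟩)
      omega
    · omega

variable {μ : Measure (ℤ → Bool)}

theorem comp_eq_sum {Ω α : Type*} [Fintype α] (f : Ω → α) (F : α → ℝ) :
    (fun x => F (f x)) = fun x => ∑ a, (f ⁻¹' {a}).indicator (fun _ => F a) x := by
  funext x
  rw [Finset.sum_eq_single (f x)]
  · simp
  · intro a _ h; simp [Set.indicator, h.symm]
  · simp

theorem integrable_comp {Ω α : Type*} [MeasurableSpace Ω] (ν : Measure Ω) [IsFiniteMeasure ν]
    [Fintype α] {f : Ω → α} (hf : Mf f) (F : α → ℝ) : Integrable (fun x => F (f x)) ν := by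
  rw [comp_eq_sum]
  exact integrable_finsetSum _ fun a _ => (integrable_const _).indicator (hf a)

theorem integral_comp {Ω α : Type*} [MeasurableSpace Ω] (ν : Measure Ω) [IsFiniteMeasure ν]
    [Fintype α] {f : Ω → α} (hf : Mf f) (F : α → ℝ) :
    ∫ x, F (f x) ∂ν = ∑ a, ν.real (f ⁻¹' {a}) * F a := by
  rw [comp_eq_sum, integral_finsetSum _ fun a _ => (integrable_const _).indicator (hf a)]
  exact Finset.sum_congr rfl fun a _ => by rw [integral_indicator_const _ (hf a), smul_eq_mul]

/-- The cylinder of a word. -/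
def cyl (w : List Bool) : Set (ℤ → Bool) := win 0 w.length ⁻¹' {v | List.ofFn v = w}

theorem cnt_cast (w : List Bool) (N : ℕ) : (fun x => (cnt w 0 N x : ℝ)) = fun x =>
    ∑ i ∈ Finset.range N,
      (win (0 + i) w.length ⁻¹' {v | List.ofFn v = w}).indicator (fun _ => (1 : ℝ)) x := by
  funext x
  unfold cnt
  push_cast
  refine Finset.sum_congr rfl fun i _ => ?_
  simp [Set.indicator]

theorem integrable_cnt [IsProbabilityMeasure μ] (w : List Bool) (N : ℕ) :
    Integrable (fun x => (cnt w 0 N x : ℝ)) μ := by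
  rw [cnt_cast]
  exact integrable_finsetSum _ fun i _ =>
    (integrable_const _).indicator (isClopen_win _ _ _).isOpen.measurableSet

theorem integral_cnt [IsProbabilityMeasure μ] (hμ : MeasurePreserving shift μ μ) (w : List Bool)
    (N : ℕ) : ∫ x, (cnt w 0 N x : ℝ) ∂μ = N * μ.real (cyl w) := by
  rw [cnt_cast, integral_finsetSum _ fun i _ =>
    (integrable_const _).indicator (isClopen_win _ _ _).isOpen.measurableSet]
  rw [Finset.sum_congr rfl fun i _ => show _ = μ.real (cyl w) by
    rw [integral_indicator_const _ (isClopen_win _ _ _).isOpen.measurableSet, real_win hμ,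
      smul_eq_mul, mul_one]; rfl]
  simp

theorem est [IsProbabilityMeasure μ] (hμ : MeasurePreserving shift μ μ) (hX : μ XRF = 1)
    (h : (htop : EReal) ≤ ksEntropy μ) (w : List Bool) (m ε t : ℝ) (n : ℕ) (h0 : 0 ≤ m)
    (h1 : m ≤ 1) (hε : 0 ≤ ε) (ht : 0 < t)
    (hc : ∀ k, (k = n + 1 ∨ k = n + 1 + 1) →
      (((A k).filter fun b => ε * fl k < |(occ w b : ℝ) - m * fl k|).card : ℝ) ≤
        Real.exp (-t) * cA k) :
    |μ.real (cyl w) - m| ≤ ε + 12 / t + w.length / fl (n + 1) := by
  classical
  obtain ⟨C, hC, φ, hφ1, hφ2⟩ := count_main w htop m ε t (n + 1) htop_nonneg h0 h1 hε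
    (by rintro k (rfl | rfl) <;> exact growth_A _) hc
  refine le_of_forall_pos_le_add fun θ hθ => ?_
  set f : ℝ := ((fl (n + 1) : ℕ) : ℝ) with hf
  set F : ℝ := ((fl (n + 1 + 1) : ℕ) : ℝ) with hF
  have f0 : 0 < f := flR_pos _
  have F0 : 0 < F := flR_pos _
  have Ff : F ≤ 2 * f := by simp only [hf, hF]; exact_mod_cast fl_le_two (n + 1)
  have e2 : ∀ᶠ N : ℕ in atTop, F * Real.log C / t + 3 * w.length + 2 * F ≤ θ * N :=
    (tendsto_natCast_atTop_atTop.const_mul_atTop hθ).eventually_ge_atTop _
  obtain ⟨N, a1, a2, a3⟩ := ((frequently_HN hμ h (1 / f) (by positivity)).and_eventually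
    (e2.and (eventually_gt_atTop 0))).exists
  have N0 : (0 : ℝ) < N := by exact_mod_cast a3
  set ρ : (Fin N → Bool) → ℝ := fun v => μ.real (win 0 N ⁻¹' {v}) with hρ
  have ρ0 : ∀ v, 0 ≤ ρ v := fun _ => measureReal_nonneg
  have ρ1 : ∑ v, ρ v = 1 := sum_real_eq_one μ (mf_win 0 N)
  set Φ := ∑ v, ρ v * (φ (List.ofFn v) : ℝ) with hΦ
  have g1 := Hent_gibbs μ (mf_win 0 N) (fun v => t * φ (List.ofFn v)) (LN N)
    (C * Real.exp ((htop + 5 / f) * N)) (fun _ h => mem_LN_of_pos hX h) (by
      have := hφ2 N ((LN N).image List.ofFn) (by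
        intro u hu
        obtain ⟨v, hv, rfl⟩ := Finset.mem_image.1 hu
        exact ⟨legal_of_LN hv, by simp⟩)
      rwa [Finset.sum_image fun _ _ _ _ e => List.ofFn_injective e] at this) (by positivity)
  rw [Real.log_mul hC.ne' (Real.exp_pos _).ne', Real.log_exp] at g1
  have g2 : ∑ v, μ.real (win 0 N ⁻¹' {v}) * (t * φ (List.ofFn v)) = t * Φ := by
    rw [hΦ, Finset.mul_sum]
    exact Finset.sum_congr rfl fun v _ => by simp only [hρ]; ring
  rw [g2] at g1
  have g3 : t * Φ ≤ Real.log C + 6 / f * N := by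
    unfold HN at a1
    have : (6 : ℝ) / f * N = 5 / f * N + 1 / f * N := by ring
    linarith
  set O := ∑ v, ρ v * (occ w (List.ofFn v) : ℝ) with hO
  have g4 : |O - m * N| ≤ ε * N + F * Φ + w.length * (N / f + 2) + 2 * F := by
    have e1 : O - m * N = ∑ v, ρ v * ((occ w (List.ofFn v) : ℝ) - m * N) := by
      simp only [mul_sub, Finset.sum_sub_distrib, ← Finset.sum_mul, ρ1, one_mul, hO]
    have e3 : ε * N + F * Φ + w.length * (N / f + 2) + 2 * F =
        ∑ v, ρ v * (ε * N + F * φ (List.ofFn v) + w.length * (N / f + 2) + 2 * F) := by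
      simp only [mul_add (ρ _), Finset.sum_add_distrib, ← Finset.sum_mul, ρ1, one_mul, hΦ,
        Finset.mul_sum]
      congr 3
      exact Finset.sum_congr rfl fun v _ => by ring
    rw [e1, e3]
    refine (Finset.abs_sum_le_sum_abs _ _).trans (Finset.sum_le_sum fun v _ => ?_)
    rw [abs_mul, abs_of_nonneg (ρ0 v)]
    rcases (ρ0 v).eq_or_lt with h2 | h2
    · rw [← h2]; simp
    · have := hφ1 _ (legal_of_LN (mem_LN_of_pos hX h2.ne'))
      rw [List.length_ofFn] at this
      exact mul_le_mul_of_nonneg_left this h2.le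
  have i1 := integral_comp μ (mf_win 0 N) fun v => (occ w (List.ofFn v) : ℝ)
  have i2 := integrable_comp μ (mf_win 0 N) fun v => (occ w (List.ofFn v) : ℝ)
  have g5 : O ≤ N * μ.real (cyl w) := by
    rw [← integral_cnt hμ, hO, ← i1]
    exact integral_mono i2 (integrable_cnt w N) fun x => by
      exact Nat.cast_le.2 (occ_cnt w x N 0).1
  have g6 : N * μ.real (cyl w) ≤ O + w.length := by
    rw [← integral_cnt hμ, hO, ← i1]
    have := integral_mono (integrable_cnt (μ := μ) w N) (i2.add (integrable_const (w.length : ℝ)))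
      fun x => by
        have := (occ_cnt w x N 0).2
        simp only [Pi.add_apply]
        exact_mod_cast this.trans (by omega)
    rw [integral_add' i2 (integrable_const _)] at this
    simpa using this
  have g7 : F * Φ ≤ F * Real.log C / t + 12 / t * N := by
    have b1 : Φ ≤ (Real.log C + 6 / f * N) / t := by rw [le_div_iff₀ ht]; linarith
    have b2 := mul_le_mul_of_nonneg_left b1 F0.le
    have b3 : F * ((Real.log C + 6 / f * N) / t) = F * Real.log C / t + (F / f) * (6 / t * N) := by
      field_simp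
    have b4 : F / f ≤ 2 := by rw [div_le_iff₀ f0]; exact Ff
    have b5 := mul_le_mul_of_nonneg_right b4 (show 0 ≤ 6 / t * N by positivity)
    have b6 : 12 / t * N = 2 * (6 / t * N) := by ring
    linarith
  have g8 : |μ.real (cyl w) - m| * N ≤ (ε + 12 / t + w.length / f + θ) * N := by
    rw [← abs_of_pos N0, ← abs_mul, abs_of_pos N0]
    have b1 : (w.length : ℝ) * (N / f + 2) = w.length / f * N + 2 * w.length := by ring
    rw [abs_le] at g4 ⊢
    constructor <;> nlinarith [g4.1, g4.2, (Nat.cast_nonneg w.length : (0 : ℝ) ≤ _)]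
  exact le_of_mul_le_mul_right g8 N0

theorem unique_mme {μ ν : Measure (ℤ → Bool)} [IsProbabilityMeasure μ] [IsProbabilityMeasure ν]
    (hμ : MeasurePreserving shift μ μ) (hX : μ XRF = 1) (h : (htop : EReal) ≤ ksEntropy μ)
    (hν : MeasurePreserving shift ν ν) (hX' : ν XRF = 1) (h' : (htop : EReal) ≤ ksEntropy ν) :
    μ = ν := by
  have key : ∀ w, μ.real (cyl w) = ν.real (cyl w) := by
    intro w
    refine eq_of_forall_dist_le fun ε hε => ?_
    have e1 := (tendsto_add_atTop_nat 1).eventually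
      (conc w (ε / 6) (Real.exp (-(72 / ε))) (by positivity) (Real.exp_pos _))
    have e2 : ∀ᶠ n in atTop, (w.length : ℝ) / fl (n + 1) < ε / 6 :=
      (tendsto_const_nhds.div_atTop (tendsto_fl.comp (tendsto_add_atTop_nat 1))).eventually
        (gt_mem_nhds (by positivity))
    obtain ⟨n, ⟨m, h0, h1, hc⟩, a2⟩ := (e1.and e2).exists
    have b1 := est hμ hX h w m (ε / 6) (72 / ε) n h0 h1 (by positivity) (by positivity) hc
    have b2 := est hν hX' h' w m (ε / 6) (72 / ε) n h0 h1 (by positivity) (by positivity) hc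
    have b3 : 12 / (72 / ε) = ε / 6 := by field_simp; ring
    rw [b3, abs_le] at b1 b2
    rw [Real.dist_eq, abs_le]
    constructor <;> linarith [b1.1, b1.2, b2.1, b2.2]
  refine ext_win fun a n v => ?_
  rw [real_win hμ, real_win hν]
  have := key (List.ofFn v)
  have e : cyl (List.ofFn v) = win 0 n ⁻¹' {v} := by
    ext x
    have := prefix_win (w := List.ofFn v) (a := 0) (M := n) (x := x)
    simp only [cyl, Set.mem_preimage, Set.mem_ofPred_eq, Set.mem_singleton_iff]
    constructor
    · intro h2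
      exact List.ofFn_injective ((this.2 ⟨by simp, h2⟩).eq_of_length (by simp)).symm
    · intro h2
      exact (this.1 (by rw [h2])).2
  rwa [e] at this

end Pool.Agent.Lib.MP_ef06cf_an
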